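import Mathlib

set_option autoImplicit false

/-!
# Relation modules of rank one over polynomial rings
-/

namespace Pool.Agent.K1H46.UD

open MvPolynomial

section prim

variable {K G : Type} [Field K] [Field G] {n : ℕ} (E : MvPolynomial (Fin n) K →+* G)
  {J : Type} [Fintype J]

/-- the relation module -/
def IsRel (ζ : Option J → G) (f : Option J → MvPolynomial (Fin n) K) : Prop :=
  ∑ κ, E (f κ) * ζ κ = 0

/-- **A primitive relation.** If `ζ (some j)` are linearly independent over the polynomial ring
and there is a relation with a nonzero coefficient of `ζ none`, then all relations are multiples of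
one of them. -/
theorem prim (hE : Function.Injective E) (ζ : Option J → G)
    (hind : ∀ q : J → MvPolynomial (Fin n) K, ∑ j, E (q j) * ζ (some j) = 0 → ∀ j, q j = 0)
    (hdep : ∃ f, IsRel E ζ f ∧ f none ≠ 0) :
    ∃ f, IsRel E ζ f ∧ f none ≠ 0 ∧ ∀ g, IsRel E ζ g → ∃ F, ∀ κ, g κ = F * f κ := by
  classical
  -- minimal total degree
  obtain ⟨f, ⟨hf, hf0⟩, hmin⟩ : ∃ f, (IsRel E ζ f ∧ f none ≠ 0) ∧
      ∀ g, (IsRel E ζ g ∧ g none ≠ 0) → (f none).totalDegree ≤ (g none).totalDegree := by
    obtain ⟨f0, h0⟩ := hdep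
    obtain ⟨d, hd, hd2⟩ := WellFounded.has_min (wellFounded_lt (α := ℕ))
      ((fun f : Option J → MvPolynomial (Fin n) K => (f none).totalDegree) ''
        {f | IsRel E ζ f ∧ f none ≠ 0}) ⟨_, f0, h0, rfl⟩
    obtain ⟨f, hf, rfl⟩ := hd
    exact ⟨f, hf, fun g hg => not_lt.1 (hd2 _ ⟨g, hg, rfl⟩)⟩
  -- common divisors are units
  have hunit : ∀ d, (∀ κ, d ∣ f κ) → IsUnit d := by
    intro d hd
    choose f' hf' using hd
    have hd0 : d ≠ 0 := by
      rintro rfl
      exact hf0 (by rw [hf' none, zero_mul])
    have hf'0 : f' none ≠ 0 := by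
      intro h0
      exact hf0 (by rw [hf' none, h0, mul_zero])
    have hrel : IsRel E ζ f' := by
      unfold IsRel at hf ⊢
      have hEd : E d ≠ 0 := fun h0 => hd0 (hE (by rw [h0, map_zero]))
      apply mul_left_cancel₀ hEd
      rw [mul_zero, Finset.mul_sum, ← hf]
      refine Finset.sum_congr rfl fun κ _ => ?_
      rw [hf' κ, map_mul, mul_assoc]
    have h1 := hmin f' ⟨hrel, hf'0⟩
    rw [hf' none, totalDegree_mul_of_isDomain hd0 hf'0] at h1
    have h2 : d.totalDegree = 0 := by omega
    rw [totalDegree_eq_zero_iff_eq_C] at h2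
    rw [h2]
    refine IsUnit.map C (isUnit_iff_ne_zero.2 ?_)
    intro h0
    rw [h0, map_zero] at h2
    exact hd0 h2
  refine ⟨f, hf, hf0, fun g hg => ?_⟩
  -- cross relation
  have hcross : ∀ κ, g none * f κ = f none * g κ := by
    have h1 : ∑ j, E (g none * f (some j) - f none * g (some j)) * ζ (some j) = 0 := by
      unfold IsRel at hf hg
      rw [Fintype.sum_option] at hf hg
      have e1 : ∑ j, E (g none * f (some j) - f none * g (some j)) * ζ (some j)
          = E (g none) * ∑ j, E (f (some j)) * ζ (some j)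
            - E (f none) * ∑ j, E (g (some j)) * ζ (some j) := by
        rw [Finset.mul_sum, Finset.mul_sum, ← Finset.sum_sub_distrib]
        refine Finset.sum_congr rfl fun j _ => ?_
        rw [map_sub, map_mul, map_mul]
        ring
      rw [e1]
      have e2 : ∑ j, E (f (some j)) * ζ (some j) = -(E (f none) * ζ none) := by
        linear_combination hf
      have e3 : ∑ j, E (g (some j)) * ζ (some j) = -(E (g none) * ζ none) := by
        linear_combination hg
      rw [e2, e3]
      ring
    intro κ
    cases κ with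
    | none => exact mul_comm _ _
    | some j => exact sub_eq_zero.1 (hind _ h1 j)
  -- divisibility
  have hdvd : f none ∣ g none := by
    let _ : StrongNormalizationMonoid (MvPolynomial (Fin n) K) :=
      UniqueFactorizationMonoid.strongNormalizationMonoid
    let _ : NormalizedGCDMonoid (MvPolynomial (Fin n) K) :=
      UniqueFactorizationMonoid.toNormalizedGCDMonoid _
    have h1 : f none ∣ Finset.univ.gcd fun κ => g none * f κ :=
      Finset.dvd_gcd fun κ _ => by rw [hcross κ]; exact Dvd.intro _ rfl
    have h2 := Finset.gcd_mul_left' (s := Finset.univ) (f := f) (g none)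
    have h3 : IsUnit (Finset.univ.gcd f) := hunit _ fun κ => Finset.gcd_dvd (Finset.mem_univ κ)
    have h4 : f none ∣ g none * Finset.univ.gcd f := h2.dvd_iff_dvd_right.1 h1
    exact (h3.dvd_mul_right).1 h4
  obtain ⟨F, hF⟩ := hdvd
  refine ⟨F, fun κ => ?_⟩
  have h1 := hcross κ
  rw [hF, mul_assoc] at h1
  exact (mul_left_cancel₀ hf0 h1).symm

end prim

end Pool.Agent.K1H46.UD
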