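import Mathlib
import Pool.Agent.K1H46.UD.Prim

set_option autoImplicit false
set_option linter.unusedSectionVars false

/-!
# Relation modules of rank one: bases in boxes
-/

namespace Pool.Agent.K1H46.UD

open MvPolynomial

section count

variable {K G : Type} [Field K] [Field G] [Algebra K G] {n : ℕ}
  (E : MvPolynomial (Fin n) K →+* G) {J : Type} [Fintype J] [DecidableEq J]

/-- the elements `X ^ a ζ_κ` -/
noncomputable def el (ζ : Option J → G) (x : (Fin n →₀ ℕ) × Option J) : G :=
  E (monomial x.1 1) * ζ x.2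

/-- the box -/
noncomputable def box (c : Fin n →₀ ℕ) : Finset ((Fin n →₀ ℕ) × Option J) := Finset.Iic c ×ˢ Finset.univ

lemma mem_box {c : Fin n →₀ ℕ} {x : (Fin n →₀ ℕ) × Option J} : x ∈ box c ↔ x.1 ≤ c := by
  simp [box]

lemma supp_le_iff {c : Fin n →₀ ℕ} {p : MvPolynomial (Fin n) K} :
    (∀ a ∈ p.support, a ≤ c) ↔ ∀ i, degreeOf i p ≤ c i := by
  constructor
  · intro h i
    rw [degreeOf_le_iff]
    intro a ha
    exact h a ha i
  · intro h a ha i
    exact (degreeOf_le_iff.1 (h i)) a ha

lemma expand (hE : ∀ c, E (C c) = algebraMap K G c) (ζ : Option J → G) {c : Fin n →₀ ℕ}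
    {g : Option J → MvPolynomial (Fin n) K} (hg : ∀ κ, ∀ a ∈ (g κ).support, a ≤ c) :
    ∑ κ, E (g κ) * ζ κ = ∑ x ∈ box c, algebraMap K G (coeff x.1 (g x.2)) * el E ζ x := by
  classical
  unfold box
  rw [Finset.sum_product_right]
  refine Finset.sum_congr rfl fun κ _ => ?_
  have h1 : g κ = ∑ a ∈ Finset.Iic c, C (coeff a (g κ)) * monomial a 1 := by
    conv_lhs => rw [(g κ).as_sum]
    have h2 : (g κ).support ⊆ Finset.Iic c := fun a ha => Finset.mem_Iic.2 (hg κ a ha)
    rw [Finset.sum_subset h2 (fun a _ ha => by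
      rw [notMem_support_iff.1 ha, monomial_zero])]
    refine Finset.sum_congr rfl fun a _ => ?_
    rw [C_mul_monomial, mul_one]
  conv_lhs => rw [h1]
  rw [map_sum, Finset.sum_mul]
  refine Finset.sum_congr rfl fun a _ => ?_
  unfold el
  rw [map_mul, hE]
  ring

/-- polynomials from coefficients on a finite set -/
noncomputable def pol (s : Finset ((Fin n →₀ ℕ) × Option J)) (c : Fin n →₀ ℕ)
    (u : (Fin n →₀ ℕ) × Option J → K) (κ : Option J) : MvPolynomial (Fin n) K :=
  ∑ a ∈ Finset.Iic c, if (a, κ) ∈ s then monomial a (u (a, κ)) else 0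

lemma coeff_pol {s : Finset ((Fin n →₀ ℕ) × Option J)} {c : Fin n →₀ ℕ} (hs : s ⊆ box c)
    (u : (Fin n →₀ ℕ) × Option J → K) (a : Fin n →₀ ℕ) (κ : Option J) :
    coeff a (pol s c u κ) = if (a, κ) ∈ s then u (a, κ) else 0 := by
  classical
  unfold pol
  rw [coeff_sum]
  by_cases ha : a ∈ Finset.Iic c
  · rw [Finset.sum_eq_single a]
    · split_ifs
      · rw [coeff_monomial, if_pos rfl]
      · rw [coeff_zero]
    · intro b _ hb
      split_ifs
      · rw [coeff_monomial, if_neg hb]
      · rw [coeff_zero]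
    · intro h; exact absurd ha h
  · rw [if_neg]
    · refine Finset.sum_eq_zero fun b hb => ?_
      split_ifs
      · rw [coeff_monomial, if_neg]
        rintro rfl
        exact ha hb
      · rw [coeff_zero]
    · intro h
      exact ha (Finset.mem_Iic.2 (mem_box.1 (hs h)))

lemma supp_pol {s : Finset ((Fin n →₀ ℕ) × Option J)} {c : Fin n →₀ ℕ} (hs : s ⊆ box c)
    (u : (Fin n →₀ ℕ) × Option J → K) (κ : Option J) : ∀ a ∈ (pol s c u κ).support, a ≤ c := by
  intro a ha
  rw [mem_support_iff, coeff_pol hs] at ha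
  by_contra hac
  apply ha
  rw [if_neg]
  exact fun h => hac (mem_box.1 (hs h))

lemma sum_pol (hE : ∀ c, E (C c) = algebraMap K G c) (ζ : Option J → G)
    {s : Finset ((Fin n →₀ ℕ) × Option J)} {c : Fin n →₀ ℕ} (hs : s ⊆ box c)
    (u : (Fin n →₀ ℕ) × Option J → K) :
    ∑ κ, E (pol s c u κ) * ζ κ = ∑ x ∈ s, u x • el E ζ x := by
  rw [expand E hE ζ (fun κ => supp_pol hs u κ)]
  symm
  rw [Finset.sum_subset_zero_on_sdiff hs]
  · intro x hx
    rw [coeff_pol hs, if_neg (Finset.mem_sdiff.1 hx).2, map_zero, zero_mul]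
  · intro x hx
    rw [coeff_pol hs, if_pos hx, Algebra.smul_def]

variable {ζ : Option J → G} {f : Option J → MvPolynomial (Fin n) K}

/-- the maximal degrees -/
noncomputable def dg (f : Option J → MvPolynomial (Fin n) K) : Fin n →₀ ℕ :=
  Finsupp.equivFunOnFinite.symm fun i => Finset.univ.sup fun κ => degreeOf i (f κ)

lemma dg_apply (i : Fin n) : dg f i = Finset.univ.sup fun κ => degreeOf i (f κ) := rfl

lemma le_dg (κ : Option J) (i : Fin n) : degreeOf i (f κ) ≤ dg f i := by
  rw [dg_apply]
  exact Finset.le_sup (f := fun κ => degreeOf i (f κ)) (Finset.mem_univ κ)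

/-- multiples in the box -/
lemma mult_box (hf0 : f none ≠ 0) {c : Fin n →₀ ℕ} {F : MvPolynomial (Fin n) K}
    (hF : ∀ κ, ∀ a ∈ (F * f κ).support, a ≤ c) : ∀ a ∈ F.support, a ≤ c - dg f := by
  classical
  rw [supp_le_iff]
  intro i
  by_cases hF0 : F = 0
  · rw [hF0]; simp
  · obtain ⟨κ, -, hκ⟩ := Finset.exists_mem_eq_sup Finset.univ Finset.univ_nonempty
      (fun κ => degreeOf i (f κ))
    obtain ⟨κ', hκ'0, hκ'⟩ : ∃ κ', f κ' ≠ 0 ∧ degreeOf i (f κ') = dg f i := by
      by_cases h0 : f κ = 0
      · refine ⟨none, hf0, ?_⟩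
        have h1 : dg f i = 0 := by
          rw [dg_apply, hκ, h0, degreeOf_zero]
        have h2 := le_dg (f := f) none i
        omega
      · exact ⟨κ, h0, by rw [dg_apply, hκ]⟩
    have h3 := (supp_le_iff.1 (hF κ')) i
    rw [degreeOf_mul_eq hF0 hκ'0, hκ'] at h3
    rw [Finsupp.tsub_apply]
    omega

lemma mult_box' {c : Fin n →₀ ℕ} (hc : dg f ≤ c) {F : MvPolynomial (Fin n) K}
    (hF : ∀ a ∈ F.support, a ≤ c - dg f) : ∀ κ, ∀ a ∈ (F * f κ).support, a ≤ c := by
  intro κ
  rw [supp_le_iff]
  intro i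
  have h1 := degreeOf_mul_le i F (f κ)
  have h2 := (supp_le_iff.1 hF) i
  have h3 := le_dg (f := f) κ i
  have h4 := hc i
  rw [Finsupp.tsub_apply] at h2
  omega

variable {O : Type} [AddCommGroup O] [LinearOrder O] [IsOrderedAddMonoid O]
  (key : (Fin n →₀ ℕ) →+ O) (hkey : Function.Injective key)

include hkey in
lemma uniq {S T : Finset (Fin n →₀ ℕ)} {a b : Fin n →₀ ℕ}
    (ha : ∀ x ∈ S, key a ≤ key x) (hb : ∀ x ∈ T, key b ≤ key x) : UniqueAdd S T a b := by
  intro x y hx hy hxy
  have h1 := ha x hx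
  have h2 := hb y hy
  have h3 : key x + key y = key a + key b := by
    rw [← map_add, ← map_add, hxy]
  have h4 : key x = key a := by
    refine le_antisymm ?_ h1
    by_contra hcon
    rw [not_le] at hcon
    exact absurd h3 (add_lt_add_of_lt_of_le hcon h2).ne'
  have h5 : key y = key b := by
    rw [h4] at h3
    exact add_left_cancel h3
  exact ⟨hkey h4, hkey h5⟩

/-- the dropped positions -/
noncomputable def dr (f : Option J → MvPolynomial (Fin n) K) (c a : Fin n →₀ ℕ) (κ : Option J) :
    Finset ((Fin n →₀ ℕ) × Option J) :=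
  (Finset.Iic (c - dg f)).image fun h => (h + a, κ)

lemma card_dr (c a : Fin n →₀ ℕ) (κ : Option J) :
    (dr f c a κ).card = (Finset.Iic (c - dg f)).card := by
  unfold dr
  refine Finset.card_image_of_injective _ fun h h' hh => ?_
  have := congrArg Prod.fst hh
  simpa using this

lemma dr_sub {c a : Fin n →₀ ℕ} (hc : dg f ≤ c) {κ : Option J} (ha : a ∈ (f κ).support) :
    dr f c a κ ⊆ box c := by
  intro x hx
  unfold dr at hx
  obtain ⟨h, hh, rfl⟩ := Finset.mem_image.1 hx
  rw [mem_box]
  intro i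
  have h1 := (Finset.mem_Iic.1 hh) i
  have h2 : a i ≤ dg f i := ((supp_le_iff (c := dg f)).2 (fun i => le_dg κ i)) a ha i
  have h3 := hc i
  rw [Finsupp.tsub_apply] at h1
  simp only [Finsupp.add_apply]
  omega

include hkey in
/-- the remaining elements are independent -/
lemma li (hE : ∀ c, E (C c) = algebraMap K G c) (hf0 : f none ≠ 0)
    (hprim : ∀ g, IsRel E ζ g → ∃ F, ∀ κ, g κ = F * f κ) {c a : Fin n →₀ ℕ}
    {κ : Option J} (ha : a ∈ (f κ).support) (hmin : ∀ x ∈ (f κ).support, key a ≤ key x) :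
    LinearIndepOn K (el E ζ) ((box c \ dr f c a κ : Finset _) : Set ((Fin n →₀ ℕ) × Option J)) := by
  classical
  set s := box c \ dr f c a κ with hs
  have hsub : s ⊆ box c := Finset.sdiff_subset
  rw [linearIndepOn_finset_iff]
  intro u hu
  rw [← sum_pol E hE ζ hsub] at hu
  obtain ⟨F, hF⟩ := hprim (pol s c u) hu
  have hF0 : F = 0 := by
    by_contra hne
    have hsup : F.support.Nonempty := support_nonempty.2 hne
    obtain ⟨h, hh, hhmin⟩ := Finset.exists_min_image _ key hsup
    have hu' := uniq key hkey hhmin hmin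
    have h1 : coeff (h + a) (F * f κ) = coeff h F * coeff a (f κ) :=
      AddMonoidAlgebra.coeff_mul_add_of_uniqueAdd hu'
    have hΩ : h ≤ c - dg f := mult_box hf0 (fun κ x hx => supp_pol hsub u κ x (by
      rw [hF κ]; exact hx)) h hh
    have h2 : coeff (h + a) (pol s c u κ) = 0 := by
      rw [coeff_pol hsub, if_neg]
      intro hmem
      refine (Finset.mem_sdiff.1 hmem).2 ?_
      unfold dr
      exact Finset.mem_image.2 ⟨h, Finset.mem_Iic.2 hΩ, rfl⟩
    rw [hF κ, h1] at h2
    exact mul_ne_zero (mem_support_iff.1 hh) (mem_support_iff.1 ha) h2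
  intro x hx
  have h1 := coeff_pol hsub u x.1 x.2
  rw [hF x.2, hF0, zero_mul, coeff_zero, if_pos hx] at h1
  exact h1.symm

include hkey in
/-- the remaining elements span -/
lemma sp (hE : ∀ c, E (C c) = algebraMap K G c) (hf0 : f none ≠ 0) (hf : IsRel E ζ f)
    (hprim : ∀ g, IsRel E ζ g → ∃ F, ∀ κ, g κ = F * f κ) {c a : Fin n →₀ ℕ} (hc : dg f ≤ c)
    {κ : Option J} (ha : a ∈ (f κ).support) (hmin : ∀ x ∈ (f κ).support, key a ≤ key x)
    {x : (Fin n →₀ ℕ) × Option J} (hx : x ∈ box c) :
    el E ζ x ∈ Submodule.span K (el E ζ '' ((box c \ dr f c a κ : Finset _) : Set _)) := by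
  classical
  set s := box c \ dr f c a κ with hs
  have hli := li E key hkey hE hf0 hprim (c := c) ha hmin
  rw [← hs] at hli
  -- the evaluation map
  set T : (box (J := J) c → K) →ₗ[K] G :=
    Fintype.linearCombination K (fun y : box (J := J) c => el E ζ y) with hT
  -- multiples of the relation
  set Ψ : (Finset.Iic (c - dg f) → K) →ₗ[K] (box (J := J) c → K) :=
    { toFun := fun u y => coeff y.1.1 ((∑ h : Finset.Iic (c - dg f), monomial h.1 (u h)) * f y.1.2)
      map_add' := fun u v => by
        funext y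
        simp only [Pi.add_apply, map_add, Finset.sum_add_distrib, add_mul, coeff_add]
      map_smul' := fun r u => by
        funext y
        simp only [Pi.smul_apply, smul_eq_mul, RingHom.id_apply]
        have e1 : (∑ h : Finset.Iic (c - dg f), monomial h.1 (r * u h) : MvPolynomial (Fin n) K)
            = C r * ∑ h : Finset.Iic (c - dg f), monomial h.1 (u h) := by
          rw [Finset.mul_sum]
          exact Finset.sum_congr rfl fun h _ => (C_mul_monomial).symm
        rw [e1, mul_assoc, coeff_C_mul] } with hΨ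
  have hsuppS : ∀ u : Finset.Iic (c - dg f) → K, ∀ b ∈
      (∑ h : Finset.Iic (c - dg f), monomial h.1 (u h) : MvPolynomial (Fin n) K).support,
      b ≤ c - dg f := by
    intro u b hb
    rw [mem_support_iff, coeff_sum] at hb
    obtain ⟨h, -, hh⟩ := Finset.exists_ne_zero_of_sum_ne_zero hb
    rw [coeff_monomial] at hh
    by_cases h1 : h.1 = b
    · rw [← h1]; exact Finset.mem_Iic.1 h.2
    · rw [if_neg h1] at hh; exact absurd rfl hh
  have hcoS : ∀ (u : Finset.Iic (c - dg f) → K) (h : Finset.Iic (c - dg f)),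
      coeff h.1 (∑ h : Finset.Iic (c - dg f), monomial h.1 (u h) : MvPolynomial (Fin n) K) = u h := by
    intro u h
    rw [coeff_sum, Finset.sum_eq_single h]
    · rw [coeff_monomial, if_pos rfl]
    · intro b _ hb
      rw [coeff_monomial, if_neg]
      exact fun h' => hb (Subtype.ext h')
    · intro h'; exact absurd (Finset.mem_univ _) h'
  have hinj : Function.Injective Ψ := by
    rw [← LinearMap.ker_eq_bot, LinearMap.ker_eq_bot']
    intro u hu
    set S : MvPolynomial (Fin n) K := ∑ h : Finset.Iic (c - dg f), monomial h.1 (u h) with hS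
    have h1 : S * f none = 0 := by
      ext b
      rw [coeff_zero]
      by_cases hb : b ≤ c
      · have := congrFun hu ⟨(b, none), mem_box.2 hb⟩
        exact this
      · by_contra hne
        exact hb (mult_box' hc (hsuppS u) none b (mem_support_iff.2 hne))
    have h2 : S = 0 := (mul_eq_zero.1 h1).resolve_right hf0
    funext h
    rw [← hcoS u h, ← hS, h2, coeff_zero]
    rfl
  have hker : LinearMap.range Ψ ≤ LinearMap.ker T := by
    rintro _ ⟨u, rfl⟩
    rw [LinearMap.mem_ker, hT, Fintype.linearCombination_apply]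
    set S : MvPolynomial (Fin n) K := ∑ h : Finset.Iic (c - dg f), monomial h.1 (u h) with hS
    have h1 := expand E hE ζ (g := fun κ => S * f κ) (mult_box' hc (hsuppS u))
    have h2 : ∑ κ, E (S * f κ) * ζ κ = 0 := by
      unfold IsRel at hf
      rw [← mul_zero (E S), ← hf, Finset.mul_sum]
      exact Finset.sum_congr rfl fun κ _ => by rw [map_mul, mul_assoc]
    rw [h2] at h1
    rw [h1, ← Finset.sum_coe_sort (box c)]
    refine Finset.sum_congr rfl fun y _ => ?_
    rw [Algebra.smul_def]
    rfl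
  have hrk : Module.finrank K (LinearMap.range T) ≤ s.card := by
    have h1 := LinearMap.finrank_range_add_finrank_ker T
    rw [Module.finrank_fintype_fun_eq_card, Fintype.card_coe] at h1
    have h2 : (Finset.Iic (c - dg f)).card ≤ Module.finrank K (LinearMap.ker T) := by
      have h3 := Submodule.finrank_mono hker
      rw [LinearMap.finrank_range_of_inj hinj, Module.finrank_fintype_fun_eq_card,
        Fintype.card_coe] at h3
      exact h3
    have h3 : s.card = (box (J := J) c).card - (Finset.Iic (c - dg f)).card := by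
      rw [hs, Finset.card_sdiff_of_subset (dr_sub hc ha), card_dr]
    omega
  have hle : Submodule.span K (el E ζ '' (s : Set _)) ≤ LinearMap.range T := by
    rw [Submodule.span_le]
    rintro _ ⟨y, hy, rfl⟩
    have hyb : y ∈ box c := (Finset.mem_sdiff.1 (Finset.mem_coe.1 hy)).1
    refine ⟨Pi.single ⟨y, hyb⟩ 1, ?_⟩
    rw [hT, Fintype.linearCombination_apply_single, one_smul]
  have hfr : Module.finrank K (Submodule.span K (el E ζ '' (s : Set _))) = s.card := by
    have h1 : LinearIndependent K (fun y : s => el E ζ y) := hli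
    have h2 := finrank_span_eq_card h1
    rw [Fintype.card_coe] at h2
    have e1 : el E ζ '' (s : Set _) = Set.range (fun y : s => el E ζ y) :=
      Set.image_eq_range _ _
    rw [e1]
    exact h2
  have heq : Submodule.span K (el E ζ '' (s : Set _)) = LinearMap.range T :=
    Submodule.eq_of_le_of_finrank_le hle (by rw [hfr]; exact hrk)
  rw [heq]
  refine ⟨Pi.single ⟨x, hx⟩ 1, ?_⟩
  rw [hT, Fintype.linearCombination_apply_single, one_smul]

end count

end Pool.Agent.K1H46.UD
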