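import Mathlib
import Pool.Agent.K1H46.UD.Count
import Pool.Agent.TH796.AL.All
import Pool.Agent.TH147.AL_KPA

set_option autoImplicit false
set_option linter.unusedSectionVars false

/-!
# Relations between germs of bounded height have bounded height
-/

namespace Pool.Agent.K1H46.UD

open Filter Topology Pool.Agent.TH932.Abs Pool.Agent.TH932.Germs Pool.Agent.TH932.Chi
open Pool.Agent.TH796.AL

variable {m : ℕ} {B : Base m} {L : ℕ → ℝ} (hL : Tendsto L atTop atTop)

section lattice

variable {n : ℕ} (e : Fin n → (Fin m → ℝ))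

/-- exponents -/
noncomputable def ph : (Fin n →₀ ℕ) →+ (Fin m → ℝ) where
  toFun a := ∑ i, (a i : ℤ) • e i
  map_zero' := by simp
  map_add' := by
    intro a b
    rw [← Finset.sum_add_distrib]
    refine Finset.sum_congr rfl fun i _ => ?_
    rw [Finsupp.add_apply, Nat.cast_add, add_smul]

lemma ph_apply (a : Fin n →₀ ℕ) : ph e a = ∑ i, (a i : ℤ) • e i := rfl

lemma ph_inj (he : LinearIndependent ℤ e) : Function.Injective (ph e) := by
  intro a b hab
  rw [ph_apply, ph_apply, ← sub_eq_zero, ← Finset.sum_sub_distrib] at hab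
  have h1 := Fintype.linearIndependent_iff.1 he (fun i => (a i : ℤ) - b i) (by
    rw [← hab]
    exact Finset.sum_congr rfl fun i _ => sub_smul _ _ _)
  ext i
  have := h1 i
  omega

/-- the polynomial ring in the group ring -/
noncomputable def Ph : MvPolynomial (Fin n) (KK L hL) →+* Rg m hL :=
  AddMonoidAlgebra.mapDomainRingHom (KK L hL) (ph e)

lemma Ph_monomial (a : Fin n →₀ ℕ) (c : KK L hL) :
    Ph hL e (MvPolynomial.monomial a c) = AddMonoidAlgebra.single (ph e a) c := by
  unfold Ph
  exact AddMonoidAlgebra.mapDomain_single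

lemma Ph_coeff (he : LinearIndependent ℤ e) (p : MvPolynomial (Fin n) (KK L hL))
    (a : Fin n →₀ ℕ) : (Ph hL e p).coeff (ph e a) = MvPolynomial.coeff a p := by
  classical
  induction p using MvPolynomial.induction_on' with
  | monomial b c =>
    rw [Ph_monomial, AddMonoidAlgebra.coeff_single, MvPolynomial.coeff_monomial,
      Finsupp.single_apply]
    by_cases h : b = a
    · rw [if_pos h, if_pos (by rw [h])]
    · rw [if_neg h, if_neg fun h' => h (ph_inj e he h')]
  | add p q hp hq =>
    rw [map_add, AddMonoidAlgebra.coeff_add, Finsupp.add_apply, hp, hq, MvPolynomial.coeff_add]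

lemma Ph_supp {p : MvPolynomial (Fin n) (KK L hL)} {g : Fin m → ℝ}
    (hg : (Ph hL e p).coeff g ≠ 0) : ∃ a ∈ p.support, ph e a = g := by
  classical
  rw [p.as_sum, map_sum, AddMonoidAlgebra.coeff_sum, Finsupp.finsetSum_apply] at hg
  obtain ⟨a, ha, h1⟩ := Finset.exists_ne_zero_of_sum_ne_zero hg
  refine ⟨a, ha, ?_⟩
  rw [Ph_monomial, AddMonoidAlgebra.coeff_single, Finsupp.single_apply] at h1
  by_contra hne
  rw [if_neg hne] at h1
  exact h1 rfl

lemma Ph_inj (he : LinearIndependent ℤ e) : Function.Injective (Ph (m := m) hL e) := by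
  intro p q hpq
  ext a
  rw [← Ph_coeff hL e he, ← Ph_coeff hL e he, hpq]

lemma exists_lattice (T : Finset (Fin m → ℝ)) : ∃ (n : ℕ) (e : Fin n → (Fin m → ℝ))
    (s0 : Fin m → ℝ), LinearIndependent ℤ e ∧ ∀ t ∈ T, ∃ a : Fin n →₀ ℕ, ph e a = t + s0 := by
  classical
  set Λ : Submodule ℤ (Fin m → ℝ) := Submodule.span ℤ (T : Set (Fin m → ℝ)) with hΛ
  have hfin : Module.Finite ℤ Λ := Module.Finite.span_of_finite ℤ T.finite_toSet
  have hfree : Module.Free ℤ Λ := Module.free_of_finite_type_torsion_free'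
  set b := Module.finBasis ℤ Λ with hb
  have hTΛ : ∀ t ∈ T, t ∈ Λ := fun t ht => Submodule.subset_span ht
  set N : ℕ := ∑ t : T, ∑ i, (b.repr ⟨t.1, hTΛ t.1 t.2⟩ i).natAbs with hN
  refine ⟨Module.finrank ℤ Λ, fun i => (b i : Fin m → ℝ), ∑ i, (N : ℤ) • (b i : Fin m → ℝ),
    b.linearIndependent.map' Λ.subtype (Submodule.ker_subtype Λ), fun t ht => ?_⟩
  have hle : ∀ i, (b.repr ⟨t, hTΛ t ht⟩ i).natAbs ≤ N := by
    intro i
    calc (b.repr ⟨t, hTΛ t ht⟩ i).natAbs ≤ ∑ i, (b.repr ⟨t, hTΛ t ht⟩ i).natAbs :=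
          Finset.single_le_sum (f := fun i => (b.repr ⟨t, hTΛ t ht⟩ i).natAbs)
            (fun _ _ => Nat.zero_le _) (Finset.mem_univ i)
      _ ≤ N := Finset.single_le_sum
            (f := fun t : T => ∑ i, (b.repr ⟨t.1, hTΛ t.1 t.2⟩ i).natAbs)
            (fun _ _ => Nat.zero_le _) (Finset.mem_univ (⟨t, ht⟩ : T))
  refine ⟨Finsupp.equivFunOnFinite.symm fun i => (b.repr ⟨t, hTΛ t ht⟩ i + N).toNat, ?_⟩
  rw [ph_apply]
  have e1 : ∀ i, ((Finsupp.equivFunOnFinite.symm
      (fun i => (b.repr ⟨t, hTΛ t ht⟩ i + N).toNat) i : ℕ) : ℤ) = b.repr ⟨t, hTΛ t ht⟩ i + N := by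
    intro i
    have := hle i
    rw [Finsupp.equivFunOnFinite_symm_apply_apply]
    omega
  simp only [e1, add_smul, Finset.sum_add_distrib]
  congr 1
  have h2 := congrArg (fun z : Λ => (z : Fin m → ℝ)) (b.sum_repr ⟨t, hTΛ t ht⟩)
  simp only [AddSubmonoidClass.coe_finsetSum] at h2
  exact Eq.trans (Finset.sum_congr rfl fun i _ => rfl) h2

/-- the order at the place `v` -/
noncomputable def ky (B : Base m) (v : Option (Fin m)) :
    (Fin n →₀ ℕ) →+ ℝ ×ₗ Lex (Fin m → ℝ) where
  toFun a := toLex (lv B v (ph e a), toLex (ph e a))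
  map_zero' := by
    rw [map_zero, lv_zero]
    rfl
  map_add' := by
    intro a b
    rw [map_add, lv_add]
    rfl

lemma ky_inj (v : Option (Fin m)) (he : LinearIndependent ℤ e) :
    Function.Injective (ky e B v) := by
  intro a b hab
  have h1 := toLex.injective hab
  rw [Prod.mk.injEq] at h1
  exact ph_inj e he (toLex.injective h1.2)

lemma ky_le {v : Option (Fin m)} {a b : Fin n →₀ ℕ} (h : ky e B v a ≤ ky e B v b) :
    lv B v (ph e a) ≤ lv B v (ph e b) := by
  rcases (Prod.Lex.toLex_le_toLex.1 h) with h1 | h1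
  · exact h1.le
  · exact h1.1.le

end lattice

/-! ### boxes -/

lemma card_Iic (n : ℕ) (c : Fin n →₀ ℕ) : (Finset.Iic c).card = ∏ i, (c i + 1) := by
  classical
  rw [Finsupp.card_Iic]
  simp only [Nat.card_Iic]
  refine Finset.prod_subset (Finset.subset_univ _) fun i _ hi => ?_
  rw [Finsupp.notMem_support_iff.1 hi, zero_add]

/-- a large box -/
lemma exists_box (n : ℕ) (δ : Fin n →₀ ℕ) : ∃ c : Fin n →₀ ℕ, δ ≤ c ∧
    (Finset.Iic c).card ≤ 2 * (Finset.Iic (c - δ)).card := by
  classical
  set D : ℕ := ∑ i, δ i with hD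
  set M : ℕ := 2 * n * D + D + 1 with hM
  have hδ : ∀ i, δ i ≤ D := fun i =>
    Finset.single_le_sum (f := fun i => δ i) (fun _ _ => Nat.zero_le _) (Finset.mem_univ i)
  set c : Fin n →₀ ℕ := Finsupp.equivFunOnFinite.symm fun _ => M - 1 with hc
  have hci : ∀ i, c i = M - 1 := fun i => rfl
  refine ⟨c, fun i => ?_, ?_⟩
  · rw [hci]
    have := hδ i
    omega
  · rw [card_Iic, card_Iic]
    have e1 : ∏ i, (c i + 1) = M ^ n := by
      simp only [hci]
      rw [Finset.prod_const, Finset.card_univ, Fintype.card_fin, show M - 1 + 1 = M by omega]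
    have e2 : (M - D) ^ n ≤ ∏ i, ((c - δ) i + 1) := by
      calc (M - D) ^ n = ∏ _i : Fin n, (M - D) := by
            rw [Finset.prod_const, Finset.card_univ, Fintype.card_fin]
        _ ≤ ∏ i, ((c - δ) i + 1) := by
            refine Finset.prod_le_prod' fun i _ => ?_
            rw [Finsupp.tsub_apply, hci]
            have := hδ i
            omega
    rw [e1]
    refine le_trans ?_ (Nat.mul_le_mul_left 2 e2)
    have hMD : D ≤ M := by omega
    have hM0 : (0 : ℝ) < M := by
      have : 0 < M := by omega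
      exact_mod_cast this
    have h1 : (1 : ℝ) + n * (-(D / M : ℝ)) ≤ (1 + -(D / M : ℝ)) ^ n := by
      apply one_add_mul_le_pow
      have : (D : ℝ) / M ≤ 1 := by
        rw [div_le_one hM0]
        exact_mod_cast hMD
      linarith
    have h2 : (n : ℝ) * (D / M : ℝ) ≤ 1 / 2 := by
      rw [mul_div_assoc', div_le_div_iff₀ hM0 (by norm_num)]
      have : (2 * n * D : ℝ) ≤ M := by
        rw [hM]
        push_cast
        have : (0 : ℝ) ≤ D := by positivity
        linarith
      linarith
    have h3 : (1 / 2 : ℝ) ≤ (1 + -(D / M : ℝ)) ^ n := by linarith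
    have h4 : (M : ℝ) ^ n ≤ 2 * ((M - D : ℕ) : ℝ) ^ n := by
      have e3 : ((M - D : ℕ) : ℝ) = M * (1 + -(D / M : ℝ)) := by
        rw [Nat.cast_sub hMD]
        field_simp
        ring
      rw [e3, mul_pow]
      have h5 : (0 : ℝ) < (M : ℝ) ^ n := by positivity
      nlinarith
    exact_mod_cast h4

/-! ### the relation -/

/-- elements with bounded exponents -/
def Bd (B : Base m) (hL : Tendsto L atTop atTop) (K : ℝ) (f : Rg m hL) : Prop :=
  ∀ g, f.coeff g ≠ 0 → ∀ v, |lv B v g| ≤ K

/-- the evaluation of polynomials -/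
noncomputable def EE (B : Base m) {n : ℕ} (e : Fin n → (Fin m → ℝ)) :
    MvPolynomial (Fin n) (KK L hL) →+* GG := (ev B hL).comp (Ph hL e)

lemma EE_C {n : ℕ} (e : Fin n → (Fin m → ℝ)) (c : KK L hL) :
    EE hL B e (MvPolynomial.C c) = algebraMap (KK L hL) GG c := by
  unfold EE
  rw [RingHom.comp_apply, MvPolynomial.C_apply, Ph_monomial, ev_single, map_zero, ch_zero, mul_one]
  rfl

lemma EE_monomial {n : ℕ} (e : Fin n → (Fin m → ℝ)) (a : Fin n →₀ ℕ) :
    EE hL B e (MvPolynomial.monomial a 1) = ch B hL (ph e a) := by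
  unfold EE
  rw [RingHom.comp_apply, Ph_monomial, ev_single]
  simp

lemma ev_inj (hsu : SUStmt) : Function.Injective (ev B hL) := by
  intro f g h
  rw [← sub_eq_zero]
  exact hsu m B L hL _ (by rw [map_sub, h, sub_self])

/-- **Relations between germs of bounded height.** -/
theorem rel_small (hmov : MovQStmt) (hsu : SUStmt) {J : Type} [Fintype J] (ζ : J → GG) (z : GG)
    {C : ℝ} (hC : 0 ≤ C)
    (hind : ∀ A : J → Rg m hL, ∑ j, ev B hL (A j) * ζ j = 0 → ∀ j, A j = 0)
    (hv : ∀ v j, ζ j ∈ Sv B L v (-C)) (hs : ∀ j, Sint B L (ζ j))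
    (hvz : ∀ v, z ∈ Sv B L v (-C)) (hsz : Sint B L z)
    (a : Rg m hL) (ha : a ≠ 0) (q : J → Rg m hL)
    (hrel : ev B hL a * z = ∑ j, ev B hL (q j) * ζ j) :
    ∃ (D : Rg m hL) (H : J → Rg m hL), D ≠ 0 ∧ ev B hL D * z = ∑ j, ev B hL (H j) * ζ j ∧
      Bd B hL (2 * (m + 1) * (Fintype.card J + 1) * C) D ∧
      ∀ j, Bd B hL (2 * (m + 1) * (Fintype.card J + 1) * C) (H j) := by
  classical
  set K : ℝ := 2 * (m + 1) * (Fintype.card J + 1) * C with hK
  set ζ' : Option J → GG := fun κ => κ.elim z ζ with hζ'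
  have hv' : ∀ v κ, ζ' κ ∈ Sv B L v (-C) := by
    intro v κ
    cases κ with
    | none => exact hvz v
    | some j => exact hv v j
  have hs' : ∀ κ, Sint B L (ζ' κ) := by
    intro κ
    cases κ with
    | none => exact hsz
    | some j => exact hs j
  -- the lattice
  set T : Finset (Fin m → ℝ) := a.coeff.support ∪ Finset.univ.biUnion fun j => (q j).coeff.support
    with hT
  obtain ⟨n, e, s0, he, hlat⟩ := exists_lattice T
  choose! ex hex using hlat
  -- polynomials
  set po : Rg m hL → MvPolynomial (Fin n) (KK L hL) := fun f =>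
    ∑ g ∈ f.coeff.support, MvPolynomial.monomial (ex g) (f.coeff g) with hpo
  have hPo : ∀ f : Rg m hL, f.coeff.support ⊆ T → Ph hL e (po f)
      = AddMonoidAlgebra.single s0 1 * f := by
    intro f hf
    have e1 : AddMonoidAlgebra.single s0 (1 : KK L hL) * f
        = ∑ g ∈ f.coeff.support, AddMonoidAlgebra.single (g + s0) (f.coeff g) := by
      conv_lhs => rw [sum_single f]
      rw [Finset.mul_sum]
      refine Finset.sum_congr rfl fun g _ => ?_
      rw [AddMonoidAlgebra.single_mul_single, one_mul, add_comm]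
    rw [e1, hpo]
    simp only []
    rw [map_sum]
    refine Finset.sum_congr rfl fun g hg => ?_
    rw [Ph_monomial, hex g (hf hg)]
  have haT : a.coeff.support ⊆ T := Finset.subset_union_left
  have hqT : ∀ j, (q j).coeff.support ⊆ T := fun j =>
    (Finset.subset_biUnion_of_mem (fun j => (q j).coeff.support) (Finset.mem_univ j)).trans
      Finset.subset_union_right
  set E := EE hL B e with hE
  have hEinj : Function.Injective E := (ev_inj hL hsu).comp (Ph_inj hL e he)
  have hEC : ∀ c, E (MvPolynomial.C c) = algebraMap (KK L hL) GG c := EE_C hL e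
  have hEpo : ∀ f : Rg m hL, f.coeff.support ⊆ T → E (po f) = ch B hL s0 * ev B hL f := by
    intro f hf
    rw [hE]
    unfold EE
    rw [RingHom.comp_apply, hPo f hf, map_mul, ev_single]
    simp
  have hindP : ∀ p : J → MvPolynomial (Fin n) (KK L hL),
      ∑ j, E (p j) * ζ' (some j) = 0 → ∀ j, p j = 0 := by
    intro p hp j
    have h1 := hind (fun j => Ph hL e (p j)) hp j
    exact Ph_inj hL e he (by rw [h1, map_zero])
  obtain ⟨f, hf, hf0, hprim⟩ := prim E hEinj ζ' hindP ⟨fun κ => κ.elim (po a) fun j => -po (q j), by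
    unfold IsRel
    rw [Fintype.sum_option]
    simp only [Option.elim, hζ']
    rw [hEpo a haT]
    have e1 : ∀ j, E (-po (q j)) * ζ j = -(ch B hL s0 * (ev B hL (q j) * ζ j)) := by
      intro j
      rw [map_neg, hEpo _ (hqT j)]
      ring
    simp only [e1]
    rw [Finset.sum_neg_distrib, ← Finset.mul_sum, ← hrel]
    ring, by
    intro h0
    have h1 : E (po a) = 0 := by
      simp only [Option.elim] at h0
      rw [h0, map_zero]
    rw [hEpo a haT, mul_eq_zero] at h1
    rcases h1 with h1 | h1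
    · exact ch_ne hL s0 h1
    · exact ha (ev_inj hL hsu (by rw [h1, map_zero]))⟩
  -- the largest terms at the places
  have hmin : ∀ v : Option (Fin m), ∃ x : (Fin n →₀ ℕ) × Option J, x.1 ∈ (f x.2).support ∧
      ∀ κ, ∀ b ∈ (f κ).support, ky e B v x.1 ≤ ky e B v b := by
    intro v
    set P : Finset ((Fin n →₀ ℕ) × Option J) := Finset.univ.biUnion fun κ =>
      (f κ).support.image fun b => (b, κ) with hP
    have hPm : ∀ x : (Fin n →₀ ℕ) × Option J, x ∈ P ↔ x.1 ∈ (f x.2).support := by
      intro x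
      rw [hP]
      simp only [Finset.mem_biUnion, Finset.mem_univ, true_and, Finset.mem_image]
      constructor
      · rintro ⟨κ, b, hb, rfl⟩
        exact hb
      · intro h
        exact ⟨x.2, x.1, h, rfl⟩
    obtain ⟨b0, hb0⟩ := MvPolynomial.support_nonempty.2 hf0
    obtain ⟨x, hx, hxm⟩ := Finset.exists_min_image P (fun x => ky e B v x.1)
      ⟨(b0, none), (hPm _).2 hb0⟩
    exact ⟨x, (hPm x).1 hx, fun κ b hb => hxm (b, κ) ((hPm _).2 hb)⟩
  choose xm hxm hxmin using hmin
  obtain ⟨c, hc, hcard⟩ := exists_box n (dg f)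
  -- the systems
  set s : Option (Fin m) → Finset ((Fin n →₀ ℕ) × Option J) := fun v =>
    box c \ dr f c (xm v).1 (xm v).2 with hsdef
  set N0 : ℕ := (box (J := J) c).card - (Finset.Iic (c - dg f)).card with hN0
  have hscard : ∀ v, (s v).card = N0 := by
    intro v
    rw [hsdef]
    simp only []
    rw [Finset.card_sdiff_of_subset (dr_sub hc (hxm v)), card_dr]
  set ee : ∀ v, Fin N0 ≃ s v := fun v => ((s v).equivFinOfCardEq (hscard v)).symm with hee
  set zz : Option (Fin m) → Fin N0 → GG := fun v i => el E ζ' (ee v i) with hzz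
  set w : Option (Fin m) → Fin N0 → ℝ := fun v i => lv B v (ph e (ee v i).1.1) - C with hw
  have hli : ∀ v, LinearIndependent (KK L hL) (zz v) := by
    intro v
    have h1 := li E (ky e B v) (ky_inj e v he) hEC hf0 hprim (c := c) (hxm v)
      (fun x hx => hxmin v _ x hx)
    have h2 : LinearIndependent (KK L hL) (fun y : s v => el E ζ' y) := h1
    exact h2.comp (ee v) (ee v).injective
  have hspan : ∀ v i, zz v i ∈ Submodule.span (KK L hL) (Set.range (zz none)) := by
    intro v i
    have h1 := sp E (ky e B none) (ky_inj e none he) hEC hf0 hf hprim hc (hxm none)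
      (fun x hx => hxmin none _ x hx) (x := (ee v i).1)
      (Finset.mem_sdiff.1 (ee v i).2).1
    have h2 : el E ζ' '' ((s none : Finset _) : Set _) = Set.range (zz none) := by
      ext g
      constructor
      · rintro ⟨y, hy, rfl⟩
        refine ⟨(ee none).symm ⟨y, hy⟩, ?_⟩
        rw [hzz]
        simp only [Equiv.apply_symm_apply]
      · rintro ⟨i, rfl⟩
        exact ⟨_, (ee none i).2, rfl⟩
    rw [← h2]
    exact h1
  have hmain := hmov m B L hL (Fin N0) inferInstance zz w
    (fun v c hc => Fintype.linearIndependent_iff.1 (hli v) c (by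
      rw [← hc]
      rfl))
    (fun v i => by
      obtain ⟨c, hc⟩ := (Submodule.mem_span_range_iff_exists_fun (KK L hL)).1 (hspan v i)
      refine ⟨c, ?_⟩
      rw [← hc]
      rfl)
    (fun v i => by
      rw [hzz, hw]
      simp only []
      unfold el
      rw [hE, EE_monomial]
      have := (filt_v (B := B) hL v).mul_mem (ch_mem (B := B) hL v (ph e (ee v i).1.1))
        (hv' v (ee v i).1.2)
      rw [← sub_eq_add_neg] at this
      exact this)
    (fun i => by
      rw [hzz]
      simp only []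
      unfold el
      rw [hE, EE_monomial]
      exact Sint.mul hL (ch_sint hL _) (hs' _))
  -- the sum of the weights
  have hsumv : ∀ v, ∑ i, w v i = ∑ x ∈ box (J := J) c, lv B v (ph e x.1)
      - ∑ h ∈ Finset.Iic (c - dg f), lv B v (ph e h)
      - (Finset.Iic (c - dg f)).card * lv B v (ph e (xm v).1) - N0 * C := by
    intro v
    have e1 : ∑ i, w v i = ∑ x ∈ s v, (lv B v (ph e x.1) - C) := by
      rw [← Finset.sum_coe_sort (s v)]
      exact Equiv.sum_comp (ee v) (fun y : s v => lv B v (ph e y.1.1) - C)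
    have e2 : ∑ x ∈ s v, lv B v (ph e x.1) = ∑ x ∈ box (J := J) c, lv B v (ph e x.1)
        - ∑ x ∈ dr f c (xm v).1 (xm v).2, lv B v (ph e x.1) := by
      rw [eq_sub_iff_add_eq]
      exact Finset.sum_sdiff (dr_sub hc (hxm v))
    have e3 : ∑ x ∈ dr f c (xm v).1 (xm v).2, lv B v (ph e x.1)
        = ∑ h ∈ Finset.Iic (c - dg f), lv B v (ph e h)
          + (Finset.Iic (c - dg f)).card * lv B v (ph e (xm v).1) := by
      unfold dr
      rw [Finset.sum_image (by
        intro h _ h' _ hh
        have := congrArg Prod.fst hh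
        simpa using this)]
      simp only [map_add, lv_add]
      rw [Finset.sum_add_distrib, Finset.sum_const, nsmul_eq_mul]
    rw [e1, Finset.sum_sub_distrib, e2, e3, Finset.sum_const, hscard, nsmul_eq_mul]
    ring
  have hcv : (Fintype.card (Option (Fin m)) : ℝ) = m + 1 := by
    rw [Fintype.card_option, Fintype.card_fin]
    push_cast
    ring
  have htot : ∑ v, ∑ i, w v i = -((Finset.Iic (c - dg f)).card * ∑ v, lv B v (ph e (xm v).1))
      - (m + 1) * (N0 * C) := by
    simp only [hsumv]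
    rw [Finset.sum_sub_distrib, Finset.sum_sub_distrib, Finset.sum_sub_distrib, Finset.sum_comm,
      Finset.sum_comm (s := Finset.univ) (t := Finset.Iic (c - dg f)), ← Finset.mul_sum]
    simp only [lv_sum, Finset.sum_const_zero]
    rw [Finset.sum_const, Finset.card_univ, nsmul_eq_mul, hcv]
    ring
  rw [htot] at hmain
  -- the height of the relation
  have hΩ1 : (1 : ℝ) ≤ (Finset.Iic (c - dg f)).card := by
    have : 0 < (Finset.Iic (c - dg f)).card := Finset.card_pos.2 ⟨_, Finset.mem_Iic.2 le_rfl⟩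
    exact_mod_cast this
  have hN0le : (N0 : ℝ) ≤ 2 * (Fintype.card J + 1) * (Finset.Iic (c - dg f)).card := by
    have h1 : (box (J := J) c).card = (Finset.Iic c).card * (Fintype.card J + 1) := by
      unfold box
      rw [Finset.card_product, Finset.card_univ, Fintype.card_option]
    have h2 : N0 ≤ (Finset.Iic c).card * (Fintype.card J + 1) := by
      rw [hN0, h1]
      exact Nat.sub_le _ _
    have h3 : (Finset.Iic c).card * (Fintype.card J + 1)
        ≤ 2 * (Finset.Iic (c - dg f)).card * (Fintype.card J + 1) :=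
      Nat.mul_le_mul_right _ hcard
    have h4 : N0 ≤ 2 * (Fintype.card J + 1) * (Finset.Iic (c - dg f)).card := by
      calc N0 ≤ _ := h2.trans h3
        _ = _ := by ring
    exact_mod_cast h4
  have hheight : -∑ v, lv B v (ph e (xm v).1) ≤ K := by
    have hm0 : (0 : ℝ) ≤ m + 1 := by positivity
    have h1 : (m + 1 : ℝ) * (N0 * C) ≤ (m + 1) *
        ((2 * (Fintype.card J + 1) * (Finset.Iic (c - dg f)).card) * C) := by gcongr
    have h2 : ((Finset.Iic (c - dg f)).card : ℝ) * -∑ v, lv B v (ph e (xm v).1)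
        ≤ (Finset.Iic (c - dg f)).card * K := by
      rw [hK]
      linarith
    exact le_of_mul_le_mul_left h2 (by linarith)
  have hdiff : ∀ v κ, ∀ b ∈ (f κ).support, 0 ≤ lv B v (ph e b) - lv B v (ph e (xm v).1) ∧
      lv B v (ph e b) - lv B v (ph e (xm v).1) ≤ K := by
    intro v κ b hb
    have h0 : ∀ u, 0 ≤ lv B u (ph e b) - lv B u (ph e (xm u).1) := fun u =>
      sub_nonneg.2 (ky_le e (hxmin u κ b hb))
    refine ⟨h0 v, ?_⟩
    calc lv B v (ph e b) - lv B v (ph e (xm v).1)
        ≤ ∑ u, (lv B u (ph e b) - lv B u (ph e (xm u).1)) :=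
          Finset.single_le_sum (f := fun u => lv B u (ph e b) - lv B u (ph e (xm u).1))
            (fun u _ => h0 u) (Finset.mem_univ v)
      _ = -∑ v, lv B v (ph e (xm v).1) := by
          rw [Finset.sum_sub_distrib, lv_sum, zero_sub]
      _ ≤ K := hheight
  -- normalisation
  obtain ⟨a0, ha0⟩ := MvPolynomial.support_nonempty.2 hf0
  have hbd : ∀ κ, Bd B hL K (AddMonoidAlgebra.single (-ph e a0) 1 * Ph hL e (f κ)) := by
    intro κ g hg v
    rw [AddMonoidAlgebra.coeff_single_mul_apply, one_mul, neg_neg] at hg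
    obtain ⟨b, hb, hbg⟩ := Ph_supp hL e hg
    have h1 : g = ph e b - ph e a0 := by
      rw [hbg]
      abel
    rw [h1, lv_sub, abs_le]
    have h2 := hdiff v κ b hb
    have h3 := hdiff v none a0 ha0
    constructor <;> linarith
  have hevs : ∀ κ, ev B hL (AddMonoidAlgebra.single (-ph e a0) 1 * Ph hL e (f κ))
      = ch B hL (-ph e a0) * E (f κ) := by
    intro κ
    rw [map_mul, ev_single]
    simp only [OneMemClass.coe_one, one_mul]
    rfl
  refine ⟨AddMonoidAlgebra.single (-ph e a0) 1 * Ph hL e (f none),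
    fun j => -(AddMonoidAlgebra.single (-ph e a0) 1 * Ph hL e (f (some j))), ?_, ?_, hbd none, ?_⟩
  · intro h0
    have h1 := hevs none
    rw [h0, map_zero] at h1
    rcases mul_eq_zero.1 h1.symm with h2 | h2
    · exact ch_ne hL _ h2
    · exact hf0 (hEinj (by rw [h2, map_zero]))
  · unfold IsRel at hf
    rw [Fintype.sum_option] at hf
    simp only [Option.elim, hζ'] at hf
    rw [hevs none]
    have e1 : ∀ j, ev B hL (-(AddMonoidAlgebra.single (-ph e a0) 1 * Ph hL e (f (some j)))) * ζ j
        = -(ch B hL (-ph e a0) * (E (f (some j)) * ζ j)) := by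
      intro j
      rw [map_neg, hevs]
      ring
    simp only [e1]
    rw [Finset.sum_neg_distrib, ← Finset.mul_sum]
    have h1 : E (f none) * z = -∑ j, E (f (some j)) * ζ j := by
      rw [eq_neg_iff_add_eq_zero]
      exact hf
    rw [mul_assoc, h1]
    ring
  · intro j g hg v
    rw [AddMonoidAlgebra.coeff_neg, Finsupp.neg_apply, neg_ne_zero] at hg
    exact hbd (some j) g hg v

end Pool.Agent.K1H46.UD
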