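import Mathlib
import Pool.Agent.K1H46.UD.Rel

set_option autoImplicit false
set_option linter.unusedSectionVars false

/-!
# The key proposition with an explicit constant, and bounded bases
(the key proposition: after `Pool.Agent.TH147.AL.kpa`, itself after helper592)
-/

namespace Pool.Agent.K1H46.UD

open Filter Topology Pool.Agent.TH932.Abs Pool.Agent.TH932.Germs Pool.Agent.TH932.Chi
open Pool.Agent.TH796.AL
open scoped Pointwise

variable {m : ℕ} {B : Base m} {L : ℕ → ℝ} (hL : Tendsto L atTop atTop)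

open Pool.Agent.TH147.AL in
/-- the key proposition with an explicit constant -/
theorem kpu (h : MovAStmt) (he : ExtStmt) (F : IntermediateField ℚ ℝ) (hF : FiniteDimensional ℚ F)
    {J : Type} [Fintype J] (ζ : J → GG) (C : ℝ)
    (hind : ∀ A : J → Rg m hL, ∑ j, ev B hL (A j) * ζ j = 0 → ∀ j, A j = 0)
    (hval : ∀ v j, ζ j ∈ Sv B L v (-C)) (hsint : ∀ j, Sint B L (ζ j))
    (A : J → RgA F m hL) (x : ℝ) (hx : ∑ j, evA F B hL (A j) * rho (ζ j) ∈ SR L x) (j : J)
    (g : Fin m → ℝ) (hg : (A j).coeff g ≠ 0) :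
    x ≤ lv B none g + 2 * ((m + 1 : ℕ) : ℝ) * |C| * Fintype.card J := by
  classical
  have hindA := he m B L hL F hF J inferInstance ζ hind
  set T : Finset (Fin m → ℝ) := Finset.univ.biUnion fun j => (A j).coeff.support with hT
  have hgT : g ∈ T := Finset.mem_biUnion.2 ⟨j, Finset.mem_univ j, Finsupp.mem_support_iff.2 hg⟩
  obtain ⟨γ, hγT, hγmin⟩ := Finset.exists_min_image T (key B) ⟨g, hgT⟩
  obtain ⟨j0, _, hj0⟩ := Finset.mem_biUnion.1 hγT
  have hγ0 : (A j0).coeff γ ≠ 0 := Finsupp.mem_support_iff.1 hj0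
  have hγm : ∀ x ∈ (A j0).coeff.support, key B γ ≤ key B x := fun x hx =>
    hγmin x (Finset.mem_biUnion.2 ⟨j0, Finset.mem_univ _, hx⟩)
  obtain ⟨Ω, hΩne, hΩ⟩ := Pool.Agent.TH932.S2.KP.folner T
  set W := Ω + T with hW
  set Φ := ∑ j, evA F B hL (A j) * rho (ζ j) with hΦ
  have hval' : ∀ u j, ζ j ∈ Sv B L u (-|C|) := fun u j =>
    (filt_v hL u).anti (neg_le_neg (le_abs_self C)) (hval u j)
  set e : W × J → GG := fun i => ch B hL i.1 * ζ i.2 with he'
  set z : W × J → HR := fun i => if i.2 = j0 ∧ (i.1 : Fin m → ℝ) - γ ∈ Ω then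
      rho (ch B hL (i.1 - γ)) * Φ else rho (ch B hL i.1 * ζ i.2) with hz
  set w : Fin m → W × J → ℝ := fun v i => lv B (some v) i.1 - |C| with hw
  set wI : W × J → ℝ := fun i => if (i.2 = j0 ∧ (i.1 : Fin m → ℝ) - γ ∈ Ω) then
      lv B none (i.1 - γ) + x else lv B none i.1 - |C| with hwI
  have hord : ∀ (u : Option (Fin m)) (i : W × J), e i ∈ Sv B L u (lv B u i.1 - |C|) := by
    intro u i
    have := (filt_v hL u).mul_mem (ch_mem hL u i.1) (hval' u i.2)
    rw [← sub_eq_add_neg] at this
    exact this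
  have hmain := h m B L hL F hF (W × J) inferInstance e z w wI
    (fun c hc => li_e hL ζ hind W c hc)
    (fun c hc => li_z hL F ζ hindA A j0 γ hγ0 hγm W Ω c hc)
    (fun i => by
      have hze : z i ∈ Submodule.span (KA F hL) (Set.range fun j => rho (e j)) := by
        rw [hz]
        simp only []
        split_ifs with hs
        · rw [hΦ, Finset.mul_sum]
          refine Submodule.sum_mem _ fun j _ => ?_
          rw [evA_sum, Finset.sum_mul, Finset.mul_sum]
          refine Submodule.sum_mem _ fun t ht => ?_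
          have htW : (i.1 : Fin m → ℝ) - γ + t ∈ W := Finset.add_mem_add hs.2
            (Finset.mem_biUnion.2 ⟨j, Finset.mem_univ _, ht⟩)
          have e1 : rho (ch B hL (i.1 - γ)) *
              (((A j).coeff t : HR) * rho (ch B hL t) * rho (ζ j)) =
              ((A j).coeff t) • rho (e (⟨(i.1 : Fin m → ℝ) - γ + t, htW⟩, j)) := by
            rw [Subalgebra.smul_def, smul_eq_mul, he']
            simp only []
            rw [ch_add, map_mul, map_mul]
            ring
          rw [e1]
          exact Submodule.smul_mem _ _ (Submodule.subset_span ⟨_, rfl⟩)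
        · exact Submodule.subset_span ⟨i, rfl⟩
      obtain ⟨c, hc⟩ := (Submodule.mem_span_range_iff_exists_fun (KA F hL)).1 hze
      exact ⟨c, hc.symm⟩)
    (fun v i => hord (some v) i)
    (fun i => by
      rw [hz, hwI]
      simp only []
      split_ifs with hs
      · exact SR_mul hL (SR_rho (ch_mem hL none _)) hx
      · exact SR_rho (hord none i))
    (fun i => Sint.mul hL (ch_sint hL _) (hsint _))
    (∑ i : W × J, |lv B none i.1 - (|C|)|)
    (fun i => by
      refine SR_anti hL ?_ (SR_rho (hord none i))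
      have h1 : |lv B none i.1 - (|C|)| ≤ ∑ i : W × J, |lv B none i.1 - (|C|)| :=
        Finset.single_le_sum (f := fun i : W × J => |lv B none i.1 - (|C|)|)
          (fun _ _ => abs_nonneg _) (Finset.mem_univ i)
      have h2 := neg_abs_le (lv B none i.1 - |C|)
      linarith)
  -- the sum of the weights
  set X : ℝ := x - lv B none γ + |C| with hX
  have hwe : ∀ i, wI i = (lv B none i.1 - |C|) +
      if (i.2 = j0 ∧ (i.1 : Fin m → ℝ) - γ ∈ Ω) then X else 0 := by
    intro i
    rw [hwI]
    simp only []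
    split_ifs
    · rw [hX, sub_eq_add_neg (i.1 : Fin m → ℝ) γ, lv_add, lv_neg]
      ring
    · ring
  have hsum : ∑ v, ∑ i, w v i + ∑ i, wI i =
      -(((m + 1 : ℕ) : ℝ) * |C| * ((W.card : ℝ) * Fintype.card J)) +
      ((Finset.univ.filter fun i : W × J => i.2 = j0 ∧ (i.1 : Fin m → ℝ) - γ ∈ Ω).card : ℝ) * X := by
    have e0 : ∀ i : W × J, ∑ v, w v i + (lv B none i.1 - |C|) =
        -(((m + 1 : ℕ) : ℝ) * |C|) := by
      intro i
      have e1 := lv_sum (B := B) (i.1 : Fin m → ℝ)
      rw [Fintype.sum_option] at e1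
      rw [hw]
      simp only [Finset.sum_sub_distrib, Finset.sum_const, Finset.card_univ, Fintype.card_fin,
        nsmul_eq_mul]
      push_cast
      linarith
    rw [Finset.sum_comm]
    simp only [hwe]
    rw [Finset.sum_add_distrib, ← add_assoc, ← Finset.sum_add_distrib]
    simp only [e0]
    rw [← Finset.sum_filter, Finset.sum_const, Finset.sum_const, nsmul_eq_mul, nsmul_eq_mul]
    simp only [Finset.card_univ, Fintype.card_prod, Fintype.card_coe]
    push_cast
    ring
  have hcardΩ : Ω.card ≤ (Finset.univ.filter fun i : W × J =>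
      i.2 = j0 ∧ (i.1 : Fin m → ℝ) - γ ∈ Ω).card := by
    rw [← Finset.card_attach]
    refine Finset.card_le_card_of_injOn (fun ω => (⟨ω.1 + γ, Finset.add_mem_add ω.2 hγT⟩, j0))
      ?_ ?_
    · intro ω _
      simp
    · intro a _ b _ hab
      have h1 := congrArg (fun i : W × J => (i.1 : Fin m → ℝ)) hab
      simp only [add_left_inj] at h1
      exact Subtype.ext h1
  rw [hsum] at hmain
  by_contra hcon
  rw [not_le] at hcon
  have hlv : lv B none γ ≤ lv B none g := key_le B (hγmin g hgT)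
  have hC := abs_nonneg C
  have hJ : (0 : ℝ) ≤ Fintype.card J := by positivity
  have hm0 : (0 : ℝ) ≤ ((m + 1 : ℕ) : ℝ) := by positivity
  set M : ℝ := ((m + 1 : ℕ) : ℝ) with hM
  have hX1 : 2 * M * |C| * Fintype.card J < X := by
    rw [hX]; linarith
  have hX0 : 0 ≤ X := le_trans (by positivity) hX1.le
  have hΩ1 : (1 : ℝ) ≤ Ω.card := by exact_mod_cast hΩne.card_pos
  have hc1 : (Ω.card : ℝ) ≤ ((Finset.univ.filter fun i : W × J =>
      i.2 = j0 ∧ (i.1 : Fin m → ℝ) - γ ∈ Ω).card : ℝ) := by exact_mod_cast hcardΩ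
  have hc2 : (W.card : ℝ) ≤ 2 * Ω.card := by exact_mod_cast hΩ
  have h5 : (Ω.card : ℝ) * X ≤ M * |C| * ((W.card : ℝ) * Fintype.card J) := by
    have := mul_le_mul_of_nonneg_right hc1 hX0
    linarith
  have h6 : M * |C| * ((W.card : ℝ) * Fintype.card J) ≤
      M * |C| * ((2 * Ω.card : ℝ) * Fintype.card J) := by gcongr
  have h7 : (Ω.card : ℝ) * (2 * M * |C| * Fintype.card J) < Ω.card * X :=
    mul_lt_mul_of_pos_left hX1 (by linarith)
  nlinarith

end Pool.Agent.K1H46.UD
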