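import Mathlib
import Pool.Agent.K1H46.UD.Kp
import Pool.Agent.TH796.AL.Dir

set_option autoImplicit false
set_option linter.unusedSectionVars false

/-!
# Bases of bounded height
-/

namespace Pool.Agent.K1H46.UD

open Filter Topology Pool.Agent.TH932.Abs Pool.Agent.TH932.Germs Pool.Agent.TH932.Chi
open Pool.Agent.TH796.AL

variable {m : ℕ} {B : Base m} {L : ℕ → ℝ} {hL : Tendsto L atTop atTop}

lemma Bd.mono {K K' : ℝ} (h : K ≤ K') {f : Rg m hL} (hf : Bd B hL K f) : Bd B hL K' f :=
  fun g hg v => (hf g hg v).trans h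

lemma Bd.one {K : ℝ} (hK : 0 ≤ K) : Bd B hL K (1 : Rg m hL) := by
  intro g hg v
  rw [AddMonoidAlgebra.one_def, AddMonoidAlgebra.coeff_single, Finsupp.single_apply] at hg
  by_cases h : (0 : Fin m → ℝ) = g
  · rw [← h, lv_zero, abs_zero]
    exact hK
  · rw [if_neg h] at hg
    exact absurd rfl hg

lemma Bd.zero {K : ℝ} : Bd B hL K (0 : Rg m hL) := by
  intro g hg
  exact absurd rfl hg

lemma Bd.mul {K K' : ℝ} {f f' : Rg m hL} (hf : Bd B hL K f) (hf' : Bd B hL K' f') :
    Bd B hL (K + K') (f * f') := by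
  intro g hg v
  obtain ⟨a, b, ha, hb, rfl⟩ := Dir.supp_mul hL hg
  rw [lv_add]
  exact (abs_add_le _ _).trans (add_le_add (hf a ha v) (hf' b hb v))

lemma Bd.prod {ι : Type*} [DecidableEq ι] {K : ℝ} (s : Finset ι) (f : ι → Rg m hL)
    (hf : ∀ i ∈ s, Bd B hL K (f i)) : Bd B hL (s.card * K) (∏ i ∈ s, f i) := by
  induction s using Finset.induction_on with
  | empty =>
    rw [Finset.prod_empty, Finset.card_empty, Nat.cast_zero, zero_mul]
    exact Bd.one le_rfl
  | insert a s ha ih =>
    rw [Finset.prod_insert ha, Finset.card_insert_of_notMem ha]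
    have h1 := (hf a (Finset.mem_insert_self _ _)).mul
      (ih fun i hi => hf i (Finset.mem_insert_of_mem hi))
    refine h1.mono (le_of_eq ?_)
    push_cast
    ring

/-- the bound for the relations -/
noncomputable def KR (m r : ℕ) (C : ℝ) : ℝ := r * (2 * (m + 1) * (r + 1) * C)

/-- a maximal independent subfamily with coefficients of bounded height -/
theorem exists_indU (hmov : MovQStmt) (hsu : SUStmt) {Z : Type} [Fintype Z] (z : Z → GG)
    {C : ℝ} (hC : 0 ≤ C) (hv : ∀ v j, z j ∈ Sv B L v (-C)) (hs : ∀ j, Sint B L (z j)) {r : ℕ}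
    (hr : Fintype.card Z ≤ r) :
    ∃ (J : Type) (_ : Fintype J) (f : J → Z) (_ : Fintype.card J ≤ r)
      (_ : ∀ A : J → Rg m hL, ∑ j, ev B hL (A j) * z (f j) = 0 → ∀ j, A j = 0)
      (D : Rg m hL) (H : Z → J → Rg m hL), D ≠ 0 ∧ Bd B hL (KR m r C) D ∧
      (∀ i j, Bd B hL (KR m r C) (H i j)) ∧
      ∀ i, ev B hL D * z i = ∑ j, ev B hL (H i j) * z (f j) := by
  classical
  let _ : Algebra (Rg m hL) GG := (ev B hL).toAlgebra
  have hsm : ∀ (a : Rg m hL) (g : GG), a • g = ev B hL a * g := fun a g => rfl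
  obtain ⟨s, hsi, hmax⟩ := exists_maximal_linearIndepOn (Rg m hL) z
  have : Fintype s := Fintype.ofFinite s
  have hsr : Fintype.card s ≤ r := (Fintype.card_le_of_injective _ Subtype.val_injective).trans hr
  have hind : ∀ A : s → Rg m hL, ∑ j, ev B hL (A j) * z j = 0 → ∀ j, A j = 0 := by
    intro A hA
    have h3 : LinearIndependent (Rg m hL) (fun j : s => z j) := hsi
    exact Fintype.linearIndependent_iff.1 h3 A (by
      rw [← hA]
      exact Finset.sum_congr rfl fun j _ => hsm _ _)
  set K : ℝ := 2 * (m + 1) * (r + 1) * C with hK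
  have hK0 : 0 ≤ K := by positivity
  have hKs : 2 * (m + 1) * (Fintype.card s + 1) * C ≤ K := by
    rw [hK]
    have : (Fintype.card s : ℝ) ≤ r := by exact_mod_cast hsr
    gcongr
  have h1 : ∀ i, ∃ a : Rg m hL, a ≠ 0 ∧ Bd B hL K a ∧ ∃ c : s → Rg m hL,
      (∀ j, Bd B hL K (c j)) ∧ ev B hL a * z i = ∑ j, ev B hL (c j) * z j := by
    intro i
    by_cases hi : i ∈ s
    · refine ⟨1, one_ne_zero, Bd.one hK0, fun j => if (j : Z) = i then 1 else 0, fun j => ?_, ?_⟩
      · change Bd B hL K (if (j : Z) = i then 1 else 0)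
        split_ifs
        · exact Bd.one hK0
        · exact Bd.zero
      · rw [map_one, one_mul, Finset.sum_eq_single (⟨i, hi⟩ : s)]
        · simp
        · intro b _ hb
          have hb' : (b : Z) ≠ i := fun h => hb (Subtype.ext h)
          simp only [if_neg hb', map_zero, zero_mul]
        · intro h
          exact absurd (Finset.mem_univ _) h
    · obtain ⟨a, ha, h2⟩ := hmax i hi
      rw [Set.image_eq_range] at h2
      obtain ⟨c, hc⟩ := (Submodule.mem_span_range_iff_exists_fun (Rg m hL)).1 h2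
      obtain ⟨D, H, hD0, hDz, hDb, hHb⟩ := rel_small hL hmov hsu (fun j : s => z j) (z i) hC hind
        (fun v j => hv v j) (fun j => hs j) (fun v => hv v i) (hs i) a ha c hc.symm
      exact ⟨D, hD0, hDb.mono hKs, H, fun j => (hHb j).mono hKs, hDz⟩
  choose a ha hab c hcb hc using h1
  refine ⟨s, inferInstance, fun j => (j : Z), hsr, hind, ∏ i, a i,
    fun i j => (∏ i' ∈ Finset.univ.erase i, a i') * c i j, ?_, ?_, ?_, ?_⟩
  · exact Finset.prod_ne_zero_iff.2 fun i _ => ha i
  · refine (Bd.prod Finset.univ a fun i _ => hab i).mono ?_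
    unfold KR
    rw [Finset.card_univ, ← hK]
    have : (Fintype.card Z : ℝ) ≤ r := by exact_mod_cast hr
    gcongr
  · intro i j
    refine ((Bd.prod (Finset.univ.erase i) a fun i _ => hab i).mul (hcb i j)).mono ?_
    have h2 : (Finset.univ.erase i).card + 1 = Fintype.card Z := by
      rw [Finset.card_erase_add_one (Finset.mem_univ i), Finset.card_univ]
    have h3 : ((Finset.univ.erase i).card : ℝ) + 1 ≤ r := by
      have : (Finset.univ.erase i).card + 1 ≤ r := by omega
      exact_mod_cast this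
    unfold KR
    rw [← hK]
    nlinarith
  · intro i
    rw [← Finset.mul_prod_erase _ _ (Finset.mem_univ i), map_mul, mul_comm (ev B hL (a i)),
      mul_assoc, hc i, Finset.mul_sum]
    refine Finset.sum_congr rfl fun j _ => ?_
    rw [map_mul, mul_assoc]

end Pool.Agent.K1H46.UD
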