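import Mathlib
import Pool.Agent.K1H46.UD.Ind
import Pool.Agent.TH796.AL.Nv4

set_option autoImplicit false
set_option linter.unusedSectionVars false

/-!
# Independence of subspaces with trivial intersections: uniform heights
(after `Pool.Agent.TH796.AL.Dir.direct`)
-/

namespace Pool.Agent.K1H46.UD

open Filter Topology Pool.Agent.TH932.Abs Pool.Agent.TH932.Germs Pool.Agent.TH932.Chi
open Pool.Agent.TH796.AL Pool.Agent.TH796.AL.Lin Pool.Agent.TH796.AL.Dir

variable {m : ℕ} {B : Base m} {L : ℕ → ℝ} (hL : Tendsto L atTop atTop)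

/-- `RepV` with at most `r` germs of height at most `C` -/
def RepU (B : Base m) {L : ℕ → ℝ} (hL : Tendsto L atTop atTop)
    (V : Submodule ℝ (Fin m → ℝ)) (r : ℕ) (C : ℝ) (x : ℝ) : Prop :=
  ∃ (Z : Type) (_ : Fintype Z) (z : Z → GG), Fintype.card Z ≤ r ∧
    (∀ v j, z j ∈ Sv B L v (-C)) ∧ (∀ j, z j ∈ SS L (RS B) (-C)) ∧
    ∀ E : ℝ, ∃ (P : Z → Rg m hL) (s : ℕ → ℚ), (∀ j g, (P j).coeff g ≠ 0 → g ∈ V) ∧
      gm s = ∑ j, ev B hL (P j) * z j ∧
      ∀ᶠ n in (UU : Filter ℕ), |x - s n| ≤ Real.exp (-(E * L n))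

/-- the level of the character -/
lemma ch_RS {g : Fin m → ℝ} {t : ℝ} (ht : ∀ i, t ≤ g i * Real.log (B.P i)) :
    ch B hL g ∈ SS L (RS B) t := by
  rw [ch_eq, mem_SS]
  intro ε hε
  have h1 : ∀ᶠ n in (UU : Filter ℕ), ∀ i, |((⌊ell hL (g i) n⌋ : ℤ) : ℝ) - g i * L n|
      ≤ ε / Real.log (B.P i) * L n := by
    rw [Filter.eventually_all]
    intro i
    have := B.log_pos i
    exact ev_of_atTop (fl_near hL (g i) (by positivity))
  filter_upwards [h1, L_nonneg hL] with n h1 h3
  refine ⟨1, 1, fun i => ⌊ell hL (g i) n⌋, one_ne_zero, ?_, by simp, fun i => ?_⟩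
  · simp only [Int.cast_one, abs_one]
    exact Real.one_le_exp (by positivity)
  · have hlp := B.log_pos i
    have h4 := (abs_le.1 (h1 i)).1
    have h5 : (g i * L n - ε / Real.log (B.P i) * L n) * Real.log (B.P i)
        ≤ ((⌊ell hL (g i) n⌋ : ℤ) : ℝ) * Real.log (B.P i) := by
      gcongr; linarith
    have h6 : (g i * L n - ε / Real.log (B.P i) * L n) * Real.log (B.P i)
        = (g i * Real.log (B.P i) - ε) * L n := by
      field_simp
    have h7 := ht i
    nlinarith

/-- two tubes meet in a bounded set -/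
lemma tubesU (B : Base m) {V W : Submodule ℝ (Fin m → ℝ)} (h : Disjoint V W) {ρ : ℝ} (hρ : 0 ≤ ρ) :
    ∃ R : ℝ, 0 ≤ R ∧ ∀ g : Fin m → ℝ, (∃ v ∈ V, ∃ a, (∀ u, |lv B u a| ≤ ρ) ∧ v + a = g) →
      (∃ w ∈ W, ∃ a, (∀ u, |lv B u a| ≤ ρ) ∧ w + a = g) → ∀ i, |lv B (some i) g| ≤ R := by
  classical
  obtain ⟨p, hpV, hpW⟩ := Nv.exists_proj h
  set P := LinearMap.toContinuousLinearMap p with hP
  set σ : ℝ := ∑ i, (Real.log (B.P i))⁻¹ with hσ
  set τ : ℝ := ∑ i, Real.log (B.P i) with hτ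
  have hσ0 : 0 ≤ σ := Finset.sum_nonneg fun i _ => inv_nonneg.2 (B.log_pos i).le
  have hτ0 : 0 ≤ τ := Finset.sum_nonneg fun i _ => (B.log_pos i).le
  have hnorm : ∀ a : Fin m → ℝ, (∀ u, |lv B u a| ≤ ρ) → ‖a‖ ≤ ρ * σ := by
    intro a ha
    rw [pi_norm_le_iff_of_nonneg (by positivity)]
    intro i
    have h1 := ha (some i)
    simp only [lv] at h1
    have hl := B.log_pos i
    rw [abs_mul, abs_of_pos hl] at h1
    have h2 : |a i| ≤ ρ * (Real.log (B.P i))⁻¹ := by
      rw [← div_eq_mul_inv, le_div_iff₀ hl]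
      exact h1
    have h3 : (Real.log (B.P i))⁻¹ ≤ σ :=
      Finset.single_le_sum (f := fun i => (Real.log (B.P i))⁻¹)
        (fun i _ => inv_nonneg.2 (B.log_pos i).le) (Finset.mem_univ i)
    rw [Real.norm_eq_abs]
    exact h2.trans (by gcongr)
  refine ⟨(‖P‖ * (ρ * σ + ρ * σ) + ρ * σ) * τ, by positivity, ?_⟩
  rintro g ⟨v, hv, a, ha, hva⟩ ⟨w, hw, b, hb, hwb⟩ i
  have h1 : P (b - a) = v := by
    have e1 : b - a = v - w := by
      rw [← hva] at hwb
      have : b = v + a - w := by rw [← hwb]; abel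
      rw [this]
      abel
    rw [e1]
    change p (v - w) = v
    rw [map_sub, hpV v hv, hpW w hw, sub_zero]
  have h2 : ‖v‖ ≤ ‖P‖ * (ρ * σ + ρ * σ) := by
    rw [← h1]
    refine (P.le_opNorm _).trans ?_
    gcongr
    refine (norm_sub_le _ _).trans ?_
    exact add_le_add (hnorm b hb) (hnorm a ha)
  have h3 : ‖g‖ ≤ ‖P‖ * (ρ * σ + ρ * σ) + ρ * σ := by
    rw [← hva]
    exact (norm_add_le _ _).trans (add_le_add h2 (hnorm a ha))
  have h4 : |g i| ≤ ‖g‖ := by
    rw [← Real.norm_eq_abs]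
    exact norm_le_pi_norm g i
  have h5 : Real.log (B.P i) ≤ τ :=
    Finset.single_le_sum (f := fun i => Real.log (B.P i)) (fun i _ => (B.log_pos i).le)
      (Finset.mem_univ i)
  simp only [lv]
  rw [abs_mul, abs_of_pos (B.log_pos i)]
  have hl := (B.log_pos i).le
  calc |g i| * Real.log (B.P i) ≤ ‖g‖ * Real.log (B.P i) := by gcongr
    _ ≤ (‖P‖ * (ρ * σ + ρ * σ) + ρ * σ) * τ := by gcongr

/-- tubes around several subspaces -/
lemma tubesU' (B : Base m) {k : ℕ} (V : Fin k → Submodule ℝ (Fin m → ℝ))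
    (hV : ∀ i j, i ≠ j → Disjoint (V i) (V j)) {ρ : ℝ} (hρ : 0 ≤ ρ) :
    ∃ R : ℝ, 0 ≤ R ∧ ∀ i j, i ≠ j → ∀ g : Fin m → ℝ,
      (∃ v ∈ V i, ∃ a, (∀ u, |lv B u a| ≤ ρ) ∧ v + a = g) →
      (∃ w ∈ V j, ∃ a, (∀ u, |lv B u a| ≤ ρ) ∧ w + a = g) → ∀ i, |lv B (some i) g| ≤ R := by
  classical
  choose! R hR0 hR using fun i j (h : i ≠ j) => tubesU B (hV i j h) hρ
  set M : ℝ := ∑ i, ∑ j, |R i j| with hM
  refine ⟨M, Finset.sum_nonneg fun i _ => Finset.sum_nonneg fun j _ => abs_nonneg _,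
    fun i j hij g h1 h2 i' => (hR i j hij g h1 h2 i').trans ?_⟩
  calc R i j ≤ |R i j| := le_abs_self _
    _ ≤ ∑ j, |R i j| := Finset.single_le_sum (f := fun j => |R i j|) (fun _ _ => abs_nonneg _)
        (Finset.mem_univ j)
    _ ≤ M := Finset.single_le_sum (f := fun i => ∑ j, |R i j|)
        (fun _ _ => Finset.sum_nonneg fun _ _ => abs_nonneg _) (Finset.mem_univ i)

/-- values of elements with bounded exponents -/
lemma Bd.rs {K : ℝ} {f : Rg m hL} (hf : Bd B hL K f) : ev B hL f ∈ SS L (RS B) (-K) := by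
  have hF := filt_S (B := B) hL
  rw [ev_sum]
  refine Finset.sum_induction _ (fun x => x ∈ SS L (RS B) (-K)) (fun _ _ => hF.add_mem)
    (hF.zero_mem _) fun g hg => ?_
  have h1 : ch B hL g ∈ SS L (RS B) (-K) := ch_RS hL fun i => by
    have := hf g (Finsupp.mem_support_iff.1 hg) (some i)
    exact (abs_le.1 this).1
  have h2 := hF.mul_mem (hF.alg_mem (f.coeff g)) h1
  rw [zero_add] at h2
  exact h2

lemma Bd.sv0 {K : ℝ} {f : Rg m hL} (hf : Bd B hL K f) : ev B hL f ∈ Sv B L none (-K) := by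
  have hF := filt_v (B := B) hL none
  rw [ev_sum]
  refine Finset.sum_induction _ (fun x => x ∈ Sv B L none (-K)) (fun _ _ => hF.add_mem)
    (hF.zero_mem _) fun g hg => ?_
  have h2 := hF.mul_mem (hF.alg_mem (f.coeff g)) (ch_mem (B := B) hL none g)
  rw [zero_add] at h2
  exact hF.anti (abs_le.1 (hf g (Finsupp.mem_support_iff.1 hg) none)).1 h2

/-- **Independence of subspaces with trivial intersections: uniform heights.** -/
theorem directU (h : KPAStmt) (hmova : MovAStmt) (hext : ExtStmt) (hmov : MovQStmt)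
    (hsu : SUStmt) (m : ℕ) (B : Base m) (k : ℕ) (V : Fin k → Submodule ℝ (Fin m → ℝ))
    (hV : ∀ i j, i ≠ j → Disjoint (V i) (V j)) (r : ℕ) {C : ℝ} (hC : 0 ≤ C) :
    ∃ H : ℝ, ∀ (L : ℕ → ℝ) (hL : Tendsto L atTop atTop) (y : Fin k → ℝ)
      (_ : ∀ i, RepU B hL (V i) r C (y i)) (_ : ∑ i, y i = 0) (i : Fin k),
      ∃ g : ℕ → ℚ, DB L H g ∧
        ∀ E : ℝ, ∀ᶠ n in (UU : Filter ℕ), |y i - g n| ≤ Real.exp (-(E * L n)) := by
  classical
  set ρ : ℝ := KR m (k * r) C with hρ
  have hρ0 : 0 ≤ ρ := by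
    rw [hρ]
    unfold KR
    positivity
  obtain ⟨R1, hR10, hR1⟩ := tubesU' B V hV hρ0
  set T0 : ℝ := -(R1 + C) with hT0
  refine ⟨(1 + m * (|T0| + 1)) + ((1 + m * (|-ρ| + 1)) + (1 - (-ρ))), ?_⟩
  intro L hL y hrep hsum i0
  choose Zl fZ z hcard hz1 hz2 hz3 using hrep
  -- the joint family
  set zz : (Σ l, Zl l) → GG := fun i => z i.1 i.2 with hzz
  have hcardT : Fintype.card (Σ l, Zl l) ≤ k * r := by
    rw [Fintype.card_sigma]
    calc ∑ l, Fintype.card (Zl l) ≤ ∑ _l : Fin k, r := Finset.sum_le_sum fun l _ => hcard l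
      _ = k * r := by rw [Finset.sum_const, Finset.card_univ, Fintype.card_fin, smul_eq_mul]
  obtain ⟨J, fJ, f, hJr, hind, D, H, hD, hDb, hHb, hDH⟩ := exists_indU (hL := hL) hmov hsu zz hC
    (fun v j => hz1 _ v _) (fun j => ⟨_, hz2 _ _⟩) hcardT
  rw [← hρ] at hDb hHb
  have hb1 : ∀ v j, zz (f j) ∈ Sv B L v (-C) := fun v j => hz1 _ v _
  have hK := kpu hL hmova hext ⊥ inferInstance (fun j => zz (f j)) C hind hb1
    (fun j => ⟨_, hz2 _ _⟩)
  set K0 : ℝ := 2 * ((m + 1 : ℕ) : ℝ) * |C| * Fintype.card J with hK0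
  obtain ⟨t0, ht0⟩ := ev_low (B := B) hL h hsu hD
  have hinv := SR_inv hL t0 _ ht0
  have hDne : ev B hL D ≠ 0 := fun h0 => ht0 (by rw [h0, map_zero]; exact SR_zero _)
  have ht1 : ev B hL D ∈ Sv B L none (-ρ) := hDb.sv0
  have ht1' := SR_rho ht1
  obtain ⟨δ, hδ⟩ := gm_surj (ev B hL D)
  have htD : ev B hL D ∈ SS L (RS B) (-ρ) := hDb.rs
  rw [← hδ] at htD hDne ht1 ht1'
  have hDB1 := db_inv (db_of_RS hL htD) ht1 hDne
  -- the approximations
  have hH1 : ∀ E : ℝ, ∃ g : ℕ → ℚ,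
      DB L ((1 + m * (|T0| + 1)) + ((1 + m * (|-ρ| + 1)) + (1 - (-ρ)))) g ∧
      gr (fun n => y i0 - (g n : ℝ)) ∈ SR L E := by
    intro E
    set E' : ℝ := |E| + |t0| + |-ρ| + |K0| + |C| + 1 with hE'
    choose P s hs0 hs1 hs2 using fun l => hz3 l E'
    have hsR : ∀ l, gr (fun n => (s l n : ℝ) - y l) ∈ SR L E' := by
      intro l
      rw [mem_SR]
      intro ε hε
      filter_upwards [hs2 l, L_nonneg hL] with n h1 h2
      rw [abs_sub_comm]
      refine h1.trans (Real.exp_le_exp.2 ?_)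
      nlinarith
    set Q : Fin k → J → Rg m hL := fun l i => ∑ j, P l j * H ⟨l, j⟩ i with hQ
    have hDs : ∀ l, ev B hL D * gm (s l) = ∑ i, ev B hL (Q l i) * zz (f i) := by
      intro l
      rw [hs1 l, Finset.mul_sum]
      have e1 : ∀ j, ev B hL D * (ev B hL (P l j) * z l j)
          = ∑ i, ev B hL (P l j * H ⟨l, j⟩ i) * zz (f i) := by
        intro j
        have e2 := hDH ⟨l, j⟩
        have e3 : zz ⟨l, j⟩ = z l j := rfl
        rw [e3] at e2
        rw [mul_left_comm, e2, Finset.mul_sum]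
        refine Finset.sum_congr rfl fun i _ => ?_
        rw [map_mul, mul_assoc]
      simp only [e1]
      rw [Finset.sum_comm]
      refine Finset.sum_congr rfl fun i _ => ?_
      rw [hQ]
      simp only []
      rw [map_sum, Finset.sum_mul]
    -- supports
    have hQs : ∀ l i g, (Q l i).coeff g ≠ 0 →
        ∃ v ∈ V l, ∃ a, (∀ u, |lv B u a| ≤ ρ) ∧ v + a = g := by
      intro l i g hg
      rw [hQ] at hg
      simp only [] at hg
      rw [AddMonoidAlgebra.coeff_sum, Finsupp.finsetSum_apply] at hg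
      obtain ⟨j, -, hj⟩ := Finset.exists_ne_zero_of_sum_ne_zero hg
      obtain ⟨a, b, ha, hb, hab⟩ := supp_mul hL hj
      exact ⟨a, hs0 l j a ha, b, hHb _ _ b hb, hab⟩
    -- the sum is small
    have hAs : ∑ i, evA ⊥ B hL (incR hL ⊥ (∑ l, Q l i)) * rho (zz (f i)) ∈ SR L (-ρ + E') := by
      have e1 : ∑ i, evA ⊥ B hL (incR hL ⊥ (∑ l, Q l i)) * rho (zz (f i))
          = rho (gm δ) * ∑ l, gr (fun n => (s l n : ℝ) - y l) := by
        have e3 : ∀ l, gr (fun n => (s l n : ℝ) - y l) = rho (gm (s l)) - algebraMap ℝ HR (y l) := by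
          intro l
          rw [rho_gm, cst_eq, gr_sub]
        simp only [e3, Finset.sum_sub_distrib]
        rw [← map_sum (algebraMap ℝ HR), hsum, map_zero, sub_zero, ← map_sum, ← map_mul, hδ,
          Finset.mul_sum]
        simp only [hDs, evA_incR]
        rw [Finset.sum_comm, map_sum]
        refine Finset.sum_congr rfl fun i _ => ?_
        rw [map_sum (ev B hL), ← Finset.sum_mul, map_mul]
      rw [e1]
      exact SR_mul hL ht1' (SR_sum hL _ _ fun l _ => hsR l)
    have hsupp : ∀ i g, (∑ l, Q l i).coeff g ≠ 0 → -ρ + E' ≤ lv B none g + K0 := by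
      intro i g hg
      refine hK (fun i => incR hL ⊥ (∑ l, Q l i)) (-ρ + E') hAs i g ?_
      rw [incR_coeff]
      intro h0
      apply hg
      have h3 := congrArg (fun x : KA ⊥ hL => (x : HR)) h0
      simp only [inc_coe] at h3
      have h4 : rho (((∑ l, Q l i).coeff g : KK L hL) : GG) = rho 0 := by
        rw [h3, map_zero]; rfl
      exact Subtype.ext (rho_injective h4)
    have hone : ∀ l i g, (Q l i).coeff g ≠ 0 → (¬ ∀ i', |lv B (some i') g| ≤ R1) →
        -ρ + E' ≤ lv B none g + K0 := by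
      intro l i g hg hgS
      refine hsupp i g ?_
      rw [AddMonoidAlgebra.coeff_sum, Finsupp.finsetSum_apply, Finset.sum_eq_single l]
      · exact hg
      · intro l' _ hl'
        by_contra h0
        exact hgS (hR1 l l' hl'.symm g (hQs l i g hg) (hQs l' i g h0))
      · intro h0
        exact absurd (Finset.mem_univ _) h0
    -- the bounded part
    set S1 : J → Finset (Fin m → ℝ) := fun i =>
      (Q i0 i).coeff.support.filter fun g => ∀ i', |lv B (some i') g| ≤ R1 with hS1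
    set G : GG := ∑ i, ∑ g ∈ S1 i, (((Q i0 i).coeff g : KK L hL) : GG) * ch B hL g * zz (f i)
      with hG
    obtain ⟨a, ha⟩ := gm_surj G
    have hGS : G ∈ SS L (RS B) T0 := by
      have hF := filt_S (B := B) hL
      refine Finset.sum_induction _ (fun x => x ∈ SS L (RS B) T0) (fun _ _ => hF.add_mem)
        (hF.zero_mem _) fun i _ => ?_
      refine Finset.sum_induction _ (fun x => x ∈ SS L (RS B) T0) (fun _ _ => hF.add_mem)
        (hF.zero_mem _) fun g hg => ?_
      have hgR := (Finset.mem_filter.1 hg).2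
      have h0 : ch B hL g ∈ SS L (RS B) (-R1) := ch_RS hL fun i => (abs_le.1 (hgR i)).1
      have h1 := hF.mul_mem (hF.mul_mem (hF.alg_mem ((Q i0 i).coeff g)) h0) (hz2 _ (f i).2)
      refine hF.anti ?_ h1
      rw [hT0]
      linarith
    have hdiff : ev B hL D * gm (s i0) - G ∈ Sv B L none (-ρ + E' - K0 - C) := by
      have e1 : ev B hL D * gm (s i0) - G
          = ∑ i, (ev B hL (Q i0 i) - ∑ g ∈ S1 i, (((Q i0 i).coeff g : KK L hL) : GG) * ch B hL g)
            * zz (f i) := by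
        rw [hDs i0, hG, ← Finset.sum_sub_distrib]
        refine Finset.sum_congr rfl fun i _ => ?_
        rw [sub_mul, Finset.sum_mul]
      rw [e1]
      refine Finset.sum_induction _ (fun g => g ∈ Sv B L none (-ρ + E' - K0 - C))
        (fun _ _ => (filt_v hL none).add_mem) ((filt_v hL none).zero_mem _) fun i _ => ?_
      have h2 : ev B hL (Q i0 i) - ∑ g ∈ S1 i, (((Q i0 i).coeff g : KK L hL) : GG) * ch B hL g
          ∈ Sv B L none (-ρ + E' - K0) := by
        have e2 : ev B hL (Q i0 i) - ∑ g ∈ S1 i, (((Q i0 i).coeff g : KK L hL) : GG) * ch B hL g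
            = ∑ g ∈ (Q i0 i).coeff.support.filter fun g => ¬ ∀ i', |lv B (some i') g| ≤ R1,
              (((Q i0 i).coeff g : KK L hL) : GG) * ch B hL g := by
          rw [ev_sum, sub_eq_iff_eq_add, add_comm]
          exact (Finset.sum_filter_add_sum_filter_not _ _ _).symm
        rw [e2]
        refine Finset.sum_induction _ (fun g => g ∈ Sv B L none (-ρ + E' - K0))
          (fun _ _ => (filt_v hL none).add_mem) ((filt_v hL none).zero_mem _) fun g hg => ?_
        rw [Finset.mem_filter] at hg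
        have h3 := hone i0 i g (Finsupp.mem_support_iff.1 hg.1) hg.2
        have := (filt_v (B := B) hL none).mul_mem
          ((filt_v (B := B) hL none).alg_mem ((Q i0 i).coeff g)) (ch_mem (B := B) hL none g)
        rw [zero_add] at this
        exact (filt_v hL none).anti (by linarith) this
      have h3 := (filt_v hL none).mul_mem h2 (hb1 none i)
      rw [← sub_eq_add_neg] at h3
      exact h3
    rw [← ha] at hGS
    refine ⟨fun n => a n * (δ n)⁻¹, db_mul (db_of_RS hL hGS) hDB1, ?_⟩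
    have e1 : gr (fun n => y i0 - ((a n * (δ n)⁻¹ : ℚ) : ℝ))
        = -(gr fun n => (s i0 n : ℝ) - y i0)
          + (rho (ev B hL D))⁻¹ * rho (ev B hL D * gm (s i0) - G) := by
      have hne : rho (ev B hL D) ≠ 0 := by
        rw [← hδ]
        intro h0
        exact hDne (rho_injective (by rw [h0, map_zero]))
      have e2 : (rho (ev B hL D))⁻¹ * rho (ev B hL D * gm (s i0) - G)
          = rho (gm (s i0)) - rho G * (rho (ev B hL D))⁻¹ := by
        rw [map_sub, map_mul, mul_sub, inv_mul_cancel_left₀ hne, mul_comm (rho G)]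
      rw [e2, ← ha, ← hδ, rho_gm, rho_gm, rho_gm, gr_inv, gr_mul, gr_sub, gr_neg, gr_add, gr_eq]
      refine Eventually.of_forall fun n => ?_
      push_cast
      ring
    rw [e1]
    refine SR_add hL ?_ ?_
    · have h1 : -(gr fun n => (s i0 n : ℝ) - y i0) ∈ SR L E' := by
        have h2 := SR_mul hL (SR_cst hL (-1)) (hsR i0)
        rw [zero_add, map_neg, map_one, neg_one_mul] at h2
        exact h2
      refine SR_anti hL ?_ h1
      have := le_abs_self E
      have := abs_nonneg t0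
      have := abs_nonneg (-ρ)
      have := abs_nonneg K0
      have := abs_nonneg C
      linarith
    · refine SR_anti hL ?_ (SR_mul hL hinv (SR_rho hdiff))
      have := le_abs_self E
      have := le_abs_self t0
      have := neg_abs_le (-ρ)
      have := le_abs_self K0
      have := le_abs_self C
      linarith
  exact finish hL hH1

end Pool.Agent.K1H46.UD
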