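import Mathlib
import Pool.Agent.K1H46.UD.Dir
import Pool.Agent.TH570.J3881
import Pool.Agent.TH796.AL.Ai3

set_option autoImplicit false
set_option linter.unusedSectionVars false

/-!
# Uniform representations
-/

namespace Pool.Agent.K1H46.UD

open Filter Topology Pool.Agent.TH932.Abs Pool.Agent.TH932.Germs Pool.Agent.TH932.Chi
open Pool.Agent.TH932.Words Pool.Agent.TH796.AL
open Pool.Agent.TH634.AR (RG)

/-- the levels of the generators -/
lemma zf_rs (X : RG) (j : Option (Option (Fin (X.R + 1)))) :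
    X.zf j ∈ SS X.L (RS X.B) (-X.SZ) := by
  match j with
  | none =>
    have hF := filt_S (B := X.B) X.tL
    have := hF.alg_mem 1
    rw [map_one] at this
    exact hF.anti (by have := X.SZ_nonneg; linarith) this
  | some none =>
    exact X.block_RS (q := fun n => X.Q 0 (X.nx n 0)) (h := fun n => X.nx n 0)
      (fun n => X.zz_Q (by simp)) X.nx0_le
  | some (some s) =>
    exact X.block_RS (fun n => (X.Qs_le n s).2) (fun n => X.len_le n s)

theorem repX (X : RG) (V : Submodule ℝ (Fin X.m → ℝ)) (hV : ∀ a, (fun i => (X.e a i : ℝ)) ∈ V) :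
    RepU X.B X.tL V (X.R + 3) X.SZ (X.y 0) := by
  refine ⟨Option (Option (Fin (X.R + 1))), inferInstance, X.zf, ?_, fun v j => X.zf_mem v j,
    zf_rs X, fun E => ?_⟩
  · rw [Fintype.card_option, Fintype.card_option, Fintype.card_fin]
  · obtain ⟨S, ⟨P, hP1, hP2⟩, s, hs, hx⟩ := Pool.Agent.TH570.ALV.done X V hV E
    exact ⟨P, s, hP1, by rw [← hs]; exact hP2, hx⟩

/-- **Numbers with addresses of linear complexity are uniformly represented.** -/
theorem repu (m : ℕ) (B : Base m) (α : Type) (hα : Finite α) (γ c : α → ℚ)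
    (hγ : ∀ a, γ a ≠ 0 ∧ |γ a| < 1) (e : α → Fin m → ℤ)
    (he : ∀ a, |γ a| = ∏ i, (B.P i : ℚ) ^ e a i) (C : ℝ) :
    ∃ (r : ℕ) (C' : ℝ), 0 ≤ C' ∧ ∀ (w : ℕ → α) (x : ℝ) (_ : Addr γ c w x) (_ : Irrational x)
      (N : ℕ → ℕ) (_ : ∀ n, 2 ≤ N n) (_ : ∀ n, (cx w (N n) : ℝ) ≤ C * N n)
      (hL : Tendsto (fun n => (N n : ℝ)) atTop atTop) (V : Submodule ℝ (Fin m → ℝ))
      (_ : ∀ a, (fun i => (e a i : ℝ)) ∈ V), RepU B hL V r C' x := by
  have hE : ∃ E : ℕ, ∀ a i, |e a i| ≤ E := by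
    have h1 : ∀ p : α × Fin m, ∃ E : ℕ, |e p.1 p.2| ≤ E := fun p =>
      ⟨(e p.1 p.2).natAbs, by rw [Int.natCast_natAbs]⟩
    choose f hf using h1
    obtain ⟨M, hM⟩ := (Set.finite_range f).bddAbove
    refine ⟨M, fun a i => (hf (a, i)).trans ?_⟩
    exact_mod_cast hM ⟨(a, i), rfl⟩
  refine ⟨⌈6 * |C|⌉₊ + 3, hE.choose * (2 * |C| + 1) * ∑ i, Real.log (B.P i), ?_, ?_⟩
  · have h1 : 0 ≤ ∑ i, Real.log (B.P i) := Finset.sum_nonneg fun i _ => (B.log_pos i).le
    positivity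
  intro w x hadr hx N hN2 hC hL V hV
  obtain ⟨y, M, hM, hy0, hy⟩ := hadr
  have hC0 : 0 ≤ |C| := abs_nonneg C
  have h1 : ∀ n, ∃ l, N n ≤ 2 * l ∧ l ≤ N n ∧ (cx w l : ℝ) ≤ 2 * |C| * l ∧
      (cx w (l + 1) : ℝ) ≤ 3 * |C| + cx w l := by
    intro n
    apply Pool.Agent.TH932.S2.exists_scale2 _ hC0 (hN2 n)
    refine (hC n).trans ?_
    have := le_abs_self C
    gcongr
  choose l hl1 hl2 hl3 hl4 using h1
  have g1 : ∀ n, 1 ≤ l n := fun n => by
    have h2 := hl1 n
    have h3 := hN2 n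
    omega
  have g2 : ∀ n, (l n : ℝ) ≤ (N n : ℝ) := fun n => by exact_mod_cast hl2 n
  have g3 : ∀ n, (N n : ℝ) ≤ 2 * (l n : ℝ) := fun n => by exact_mod_cast hl1 n
  have g4 : ∀ n, 2 * cx w (l n + 1) ≤ ⌈6 * |C|⌉₊ + 2 * cx w (l n) := fun n => by
    have h2 := hl4 n
    have h3 : 6 * |C| ≤ (⌈6 * |C|⌉₊ : ℝ) := Nat.le_ceil _
    have h4 : ((2 * cx w (l n + 1) : ℕ) : ℝ)
        ≤ ((⌈6 * |C|⌉₊ + 2 * cx w (l n) : ℕ) : ℝ) := by
      push_cast
      linarith
    exact_mod_cast h4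
  have h5 := repX { m := m, B := B, α := α, fin := hα, γ := γ, tr := c, hγ := hγ, e := e, he := he, w := w, y := y, M := M, hM := hM, hy := hy, hx := by rw [hy0]; exact hx, l := l, L := fun n => (N n : ℝ), R := ⌈6 * |C|⌉₊, C := 2 * |C|, tL := hL, hl1 := g1, hlL := g2, hLl := g3, hcx := hl3, hR := g4 } V hV
  have h6 : RepU B hL V (⌈6 * |C|⌉₊ + 3) (hE.choose * (2 * |C| + 1) * ∑ i, Real.log (B.P i))
      (y 0) := h5
  rw [hy0] at h6
  exact h6

/-! ### operations -/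

section ops
variable {m : ℕ} {B : Base m} {L : ℕ → ℝ} {hL : Tendsto L atTop atTop}
  {V : Submodule ℝ (Fin m → ℝ)}

lemma RepU.mono {r r' : ℕ} {C C' : ℝ} (hr : r ≤ r') (hC : C ≤ C') {x : ℝ}
    (h : RepU B hL V r C x) : RepU B hL V r' C' x := by
  obtain ⟨Z, i, z, h0, h1, h2, h3⟩ := h
  exact ⟨Z, i, z, h0.trans hr, fun v j => (filt_v hL v).anti (neg_le_neg hC) (h1 v j),
    fun j => (filt_S hL).anti (neg_le_neg hC) (h2 j), h3⟩

lemma RepU.repV {r : ℕ} {C : ℝ} {x : ℝ} (h : RepU B hL V r C x) : RepV B hL V x := by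
  obtain ⟨Z, i, z, h0, h1, h2, h3⟩ := h
  exact ⟨Z, i, z, C, h1, fun j => ⟨_, h2 j⟩, h3⟩

/-- rational constants -/
lemma RepU.const (q : ℚ) : RepU B hL V 1 0 (q : ℝ) := by
  classical
  refine ⟨Unit, inferInstance, fun _ => 1, by simp, ?_, ?_, ?_⟩
  · intro v _
    rw [neg_zero]
    have := (filt_v (B := B) hL v).alg_mem (1 : KK L hL)
    simpa using this
  · intro _
    rw [neg_zero]
    have := (filt_S (B := B) hL).alg_mem (1 : KK L hL)
    simpa using this
  · intro E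
    refine ⟨fun _ => AddMonoidAlgebra.single 0 ((q : ℚ) : KK L hL), fun _ => q, ?_, ?_, ?_⟩
    · intro _ g hg
      rw [AddMonoidAlgebra.coeff_single, Finsupp.single_apply] at hg
      by_cases h : (0 : Fin m → ℝ) = g
      · rw [← h]
        exact V.zero_mem
      · rw [if_neg h] at hg
        exact absurd rfl hg
    · simp only [Finset.univ_unique, Finset.sum_singleton, mul_one]
      rw [ev_single, ch_zero, mul_one]
      have h1 : ((q : KK L hL) : GG) = (q : GG) := by push_cast; rfl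
      rw [h1]
      have h2 : ∀ k : ℚ, (k : GG) = gm (fun _ => k) := by
        intro k
        exact (map_ratCast (⟨⟨⟨fun q : ℚ => gm (fun _ => q), rfl⟩, fun _ _ => rfl⟩, rfl, fun _ _ => rfl⟩ : ℚ →+* GG) k).symm
      exact (h2 q).symm
    · refine Eventually.of_forall fun n => ?_
      rw [sub_self, abs_zero]
      exact (Real.exp_pos _).le

/-- sums -/
lemma RepU.add {r r' : ℕ} {C C' x y : ℝ} (hx : RepU B hL V r C x) (hy : RepU B hL V r' C' y) :
    RepU B hL V (r + r') (max C C') (x + y) := by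
  obtain ⟨Z1, i1, z1, k1, h1, g1, r1⟩ := hx
  obtain ⟨Z2, i2, z2, k2, h2, g2, r2⟩ := hy
  refine ⟨Z1 ⊕ Z2, inferInstance, Sum.elim z1 z2, ?_, ?_, ?_, ?_⟩
  · rw [Fintype.card_sum]
    omega
  · rintro v (j | j)
    · exact (filt_v (B := B) hL v).anti (neg_le_neg (le_max_left _ _)) (h1 v j)
    · exact (filt_v (B := B) hL v).anti (neg_le_neg (le_max_right _ _)) (h2 v j)
  · rintro (j | j)
    · exact (filt_S (B := B) hL).anti (neg_le_neg (le_max_left _ _)) (g1 j)
    · exact (filt_S (B := B) hL).anti (neg_le_neg (le_max_right _ _)) (g2 j)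
  · intro E
    obtain ⟨P1, s1, v1, e1, a1⟩ := r1 (E + 1)
    obtain ⟨P2, s2, v2, e2, a2⟩ := r2 (E + 1)
    refine ⟨Sum.elim P1 P2, fun n => s1 n + s2 n, ?_, ?_, ?_⟩
    · rintro (j | j) g hg
      · exact v1 j g hg
      · exact v2 j g hg
    · rw [Fintype.sum_sum_type, ← gm_add, e1, e2]
      rfl
    · filter_upwards [a1, a2, two_le_exp hL one_pos] with n b1 b2 b3
      have e : x + y - ((s1 n + s2 n : ℚ) : ℝ) = (x - s1 n) + (y - s2 n) := by push_cast; ring
      rw [e]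
      calc |(x - s1 n) + (y - s2 n)| ≤ |x - s1 n| + |y - s2 n| := abs_add_le _ _
        _ ≤ Real.exp (-((E + 1) * L n)) + Real.exp (-((E + 1) * L n)) := by gcongr
        _ = 2 * Real.exp (-((E + 1) * L n)) := by ring
        _ ≤ Real.exp (1 * L n) * Real.exp (-((E + 1) * L n)) := by gcongr
        _ = Real.exp (-(E * L n)) := by rw [← Real.exp_add]; ring_nf

/-- products -/
lemma RepU.mul {r r' : ℕ} {C C' x y : ℝ} (hx : RepU B hL V r C x) (hy : RepU B hL V r' C' y) :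
    RepU B hL V (r * r') (C + C') (x * y) := by
  classical
  obtain ⟨Z1, i1, z1, k1, h1, g1, r1⟩ := hx
  obtain ⟨Z2, i2, z2, k2, h2, g2, r2⟩ := hy
  refine ⟨Z1 × Z2, inferInstance, fun p => z1 p.1 * z2 p.2, ?_, ?_, ?_, ?_⟩
  · rw [Fintype.card_prod]
    exact Nat.mul_le_mul k1 k2
  · rintro v ⟨i, j⟩
    have := (filt_v (B := B) hL v).mul_mem (h1 v i) (h2 v j)
    rw [← neg_add] at this
    exact this
  · rintro ⟨i, j⟩
    have := (filt_S (B := B) hL).mul_mem (g1 i) (g2 j)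
    rw [← neg_add] at this
    exact this
  · intro E
    set E' : ℝ := |E| + 1 with hE'
    have hE0 : 0 < E' := by positivity
    obtain ⟨P1, s1, v1, e1, a1⟩ := r1 E'
    obtain ⟨P2, s2, v2, e2, a2⟩ := r2 E'
    refine ⟨fun p => P1 p.1 * P2 p.2, fun n => s1 n * s2 n, ?_, ?_, ?_⟩
    · rintro ⟨i, j⟩ g hg
      obtain ⟨a, b, ha, hb, rfl⟩ := Dir.supp_mul hL hg
      exact V.add_mem (v1 i a ha) (v2 j b hb)
    · rw [Fintype.sum_prod_type, ← gm_mul, e1, e2, Finset.sum_mul_sum]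
      refine Finset.sum_congr rfl fun i _ => Finset.sum_congr rfl fun j _ => ?_
      rw [map_mul]
      ring
    · have hev : ∀ᶠ n in (UU : Filter ℕ), Real.log (|x| + |y| + 1) ≤ L n :=
        ev_of_atTop (hL.eventually_ge_atTop _)
      filter_upwards [a1, a2, hev, L_nonneg hL] with n b1 b2 b3 b4
      have e : x * y - ((s1 n * s2 n : ℚ) : ℝ) = x * (y - s2 n) + s2 n * (x - s1 n) := by
        push_cast; ring
      rw [e]
      have hexp : Real.exp (-(E' * L n)) ≤ 1 := by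
        rw [Real.exp_le_one_iff]
        have : 0 ≤ E' * L n := by positivity
        linarith
      have hs2 : |(s2 n : ℝ)| ≤ |y| + 1 := by
        have h3 : (s2 n : ℝ) = y - (y - s2 n) := by ring
        rw [h3]
        refine (abs_sub _ _).trans ?_
        linarith
      have hpos : 0 < |x| + |y| + 1 := by positivity
      have hle : |x| + |y| + 1 ≤ Real.exp (L n) := by
        calc |x| + |y| + 1 = Real.exp (Real.log (|x| + |y| + 1)) := (Real.exp_log hpos).symm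
          _ ≤ _ := Real.exp_le_exp.2 b3
      calc |x * (y - s2 n) + s2 n * (x - s1 n)|
          ≤ |x * (y - s2 n)| + |(s2 n : ℝ) * (x - s1 n)| := abs_add_le _ _
        _ = |x| * |y - s2 n| + |(s2 n : ℝ)| * |x - s1 n| := by rw [abs_mul, abs_mul]
        _ ≤ |x| * Real.exp (-(E' * L n)) + (|y| + 1) * Real.exp (-(E' * L n)) := by gcongr
        _ = (|x| + |y| + 1) * Real.exp (-(E' * L n)) := by ring
        _ ≤ Real.exp (L n) * Real.exp (-(E' * L n)) := by gcongr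
        _ = Real.exp (-(|E| * L n)) := by rw [← Real.exp_add, hE']; ring_nf
        _ ≤ Real.exp (-(E * L n)) := by
          apply Real.exp_le_exp.2
          have := mul_le_mul_of_nonneg_right (le_abs_self E) b4
          linarith

end ops

/-- uniformly represented along all sequences in `S` -/
def Unif {m : ℕ} (B : Base m) (S : Set ℕ) (V : Submodule ℝ (Fin m → ℝ)) (x : ℝ) : Prop :=
  ∃ (r : ℕ) (C : ℝ), 0 ≤ C ∧ ∀ (N : ℕ → ℕ) (_ : ∀ n, N n ∈ S) (_ : ∀ n, 2 ≤ N n)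
    (hL : Tendsto (fun n => (N n : ℝ)) atTop atTop), RepU B hL V r C x

section unif
variable {m : ℕ} {B : Base m} {S : Set ℕ} {V : Submodule ℝ (Fin m → ℝ)}

lemma Unif.const (q : ℚ) : Unif B S V (q : ℝ) := ⟨1, 0, le_rfl, fun _ _ _ _ => RepU.const q⟩

lemma Unif.add {x y : ℝ} (hx : Unif B S V x) (hy : Unif B S V y) : Unif B S V (x + y) := by
  obtain ⟨r, C, hC, h⟩ := hx
  obtain ⟨r', C', hC', h'⟩ := hy
  exact ⟨_, _, le_max_of_le_left hC, fun N h1 h2 hL => (h N h1 h2 hL).add (h' N h1 h2 hL)⟩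

lemma Unif.mul {x y : ℝ} (hx : Unif B S V x) (hy : Unif B S V y) : Unif B S V (x * y) := by
  obtain ⟨r, C, hC, h⟩ := hx
  obtain ⟨r', C', hC', h'⟩ := hy
  exact ⟨_, _, add_nonneg hC hC', fun N h1 h2 hL => (h N h1 h2 hL).mul (h' N h1 h2 hL)⟩

lemma Unif.aeval {σ : Type} {x : σ → ℝ} (hx : ∀ i, Unif B S V (x i)) (f : MvPolynomial σ ℚ) :
    Unif B S V (MvPolynomial.aeval x f) := by
  induction f using MvPolynomial.induction_on with
  | C a =>
    rw [MvPolynomial.aeval_C]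
    exact Unif.const a
  | add p q hp hq =>
    rw [map_add]
    exact hp.add hq
  | mul_X p i hp =>
    rw [map_mul, MvPolynomial.aeval_X]
    exact hp.mul (hx i)

end unif

end Pool.Agent.K1H46.UD
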