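import Mathlib
import Pool.Agent.K1H46.UD.Rep

set_option autoImplicit false
set_option linter.unusedSectionVars false

/-!
# Numbers with simple expansions at scales of bounded ratio
-/

namespace Pool.Agent.K1H46.UD

open Filter Topology Pool.Agent.TH932.Abs Pool.Agent.TH932.Germs Pool.Agent.TH932.Chi
open Pool.Agent.TH932.Words Pool.Agent.TH796.AL Pool.Agent.TH796.AL.Strong
open Pool.Agent.TH796.AL.Final Pool.Agent.TH796.AL.TwoB Pool.Agent.TH796.AL.Grp
open Pool.Agent.TH796.AL.Dir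

/-- `directU` without hypotheses -/
theorem direct_u (m : ℕ) (B : Base m) (k : ℕ) (V : Fin k → Submodule ℝ (Fin m → ℝ))
    (hV : ∀ i j, i ≠ j → Disjoint (V i) (V j)) (r : ℕ) {C : ℝ} (hC : 0 ≤ C) :
    ∃ H : ℝ, ∀ (L : ℕ → ℝ) (hL : Tendsto L atTop atTop) (y : Fin k → ℝ)
      (_ : ∀ i, RepU B hL (V i) r C (y i)) (_ : ∑ i, y i = 0) (i : Fin k),
      ∃ g : ℕ → ℚ, DB L H g ∧
        ∀ E : ℝ, ∀ᶠ n in (UU : Filter ℕ), |y i - g n| ≤ Real.exp (-(E * L n)) :=
  directU kpa_thm mova_thm ext_thm movq_thm su_thm m B k V hV r hC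

/-- sets of scales of bounded ratio -/
def Ratio (S : Set ℕ) : Prop := ∃ (μ : ℝ) (n₀ : ℕ), ∀ n ≥ n₀, ∃ s ∈ S, n ≤ s ∧ (s : ℝ) ≤ μ * n

lemma Ratio.inf {S : Set ℕ} (h : Ratio S) : S.Infinite := by
  obtain ⟨μ, n₀, h⟩ := h
  rw [Set.infinite_iff_exists_gt]
  intro n
  obtain ⟨s, hs, h1, _⟩ := h (max n₀ (n + 1)) (le_max_left _ _)
  exact ⟨s, hs, by have := le_max_right n₀ (n + 1); omega⟩

/-- super-exponentially good approximations at all scales of a set of bounded ratio -/
theorem rational_of {y H : ℝ} {S : Set ℕ} (hS : Ratio S)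
    (h : ∀ (N : ℕ → ℕ) (_ : ∀ n, N n ∈ S) (_ : ∀ n, 2 ≤ N n)
      (_ : Tendsto (fun n => (N n : ℝ)) atTop atTop), ∃ g : ℕ → ℚ, DB (fun n => (N n : ℝ)) H g ∧
        ∀ E : ℝ, ∀ᶠ n in (UU : Filter ℕ), |y - g n| ≤ Real.exp (-(E * (N n : ℝ)))) :
    ¬ Irrational y := by
  intro hy
  obtain ⟨μ, n₀, hμ⟩ := hS
  set M : ℝ := |μ| + 1 with hM
  have hM1 : 1 ≤ M := by have := abs_nonneg μ; linarith
  set E0 : ℝ := 4 * (|H| * M) + 1 with hE0
  -- approximations at all large scales in `S`
  obtain ⟨n₁, hn₁⟩ : ∃ n₁ : ℕ, ∀ s ∈ S, n₁ ≤ s → ∃ q : ℚ, (q.den : ℝ) ≤ Real.exp (H * s) ∧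
      |y - q| ≤ Real.exp (-(E0 * s)) := by
    by_contra hcon
    push Not at hcon
    choose N hNS hN1 hN2 using fun n : ℕ => hcon (max n 2)
    have hT : Tendsto N atTop atTop :=
      tendsto_atTop_mono (fun n => (le_max_left n 2).trans (hN1 n)) tendsto_id
    obtain ⟨g, hg1, hg2⟩ := h N hNS (fun n => (le_max_right n 2).trans (hN1 n))
      (tendsto_natCast_atTop_atTop.comp hT)
    obtain ⟨n, h1, h2⟩ := (hg1.and (hg2 E0)).exists
    exact absurd h2 (not_le.2 (hN2 n (g n) h1))
  -- approximations at all large scales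
  set n₂ : ℕ := max (max n₀ n₁) 1 with hn₂
  have h1 : ∀ n : ℕ, ∃ q : ℚ, n₂ ≤ n → (q.den : ℝ) ≤ Real.exp (|H| * M * n) ∧
      |y - q| ≤ Real.exp (-(E0 * n)) := by
    intro n
    by_cases hn : n₂ ≤ n
    · have g0 : n₀ ≤ n := ((le_max_left _ _).trans (le_max_left _ _)).trans hn
      have g1 : n₁ ≤ n := ((le_max_right _ _).trans (le_max_left _ _)).trans hn
      obtain ⟨s, hs, h1, h2⟩ := hμ n g0
      obtain ⟨q, h3, h4⟩ := hn₁ s hs (g1.trans h1)
      have hn0 : (0 : ℝ) ≤ n := Nat.cast_nonneg n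
      have h5 : (s : ℝ) ≤ M * n := by
        refine h2.trans ?_
        have := le_abs_self μ
        gcongr
        linarith
      have h6 : (n : ℝ) ≤ s := by exact_mod_cast h1
      have hs0 : (0 : ℝ) ≤ s := Nat.cast_nonneg s
      refine ⟨q, fun _ => ⟨h3.trans (Real.exp_le_exp.2 ?_), h4.trans (Real.exp_le_exp.2 ?_)⟩⟩
      · calc H * s ≤ |H| * s := by gcongr; exact le_abs_self H
          _ ≤ |H| * (M * n) := by gcongr
          _ = |H| * M * n := by ring
      · have : 0 ≤ E0 := by positivity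
        nlinarith
    · exact ⟨0, fun h => absurd h hn⟩
  choose q hq using h1
  have hstep : ∀ n, n₂ ≤ n → q (n + 1) = q n := by
    intro n hn
    obtain ⟨a1, a2⟩ := hq n hn
    obtain ⟨b1, b2⟩ := hq (n + 1) (by omega)
    have hn1 : (1 : ℝ) ≤ n := by
      have : 1 ≤ n := (le_max_right _ _).trans hn
      exact_mod_cast this
    have hHM : 0 ≤ |H| * M := by positivity
    symm
    refine eq_of_close (X := Real.exp (|H| * M * (n + 1 : ℝ))) ?_ ?_ ?_
    · refine a1.trans (Real.exp_le_exp.2 ?_)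
      nlinarith
    · have : ((n + 1 : ℕ) : ℝ) = (n : ℝ) + 1 := by push_cast; ring
      rw [this] at b1
      exact b1
    · have hE00 : 0 ≤ E0 := by positivity
      have h2 : |y - q (n + 1)| ≤ Real.exp (-(E0 * n)) := by
        refine b2.trans (Real.exp_le_exp.2 ?_)
        push_cast
        nlinarith
      have h3 : |(q n : ℝ) - q (n + 1)| ≤ 2 * Real.exp (-(E0 * n)) := by
        have e : (q n : ℝ) - q (n + 1) = (y - q (n + 1)) - (y - q n) := by ring
        rw [e]
        refine (abs_sub _ _).trans ?_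
        linarith
      calc |(q n : ℝ) - q (n + 1)| * (Real.exp (|H| * M * (n + 1)) * Real.exp (|H| * M * (n + 1)))
          ≤ 2 * Real.exp (-(E0 * n)) * (Real.exp (|H| * M * (n + 1)) *
              Real.exp (|H| * M * (n + 1))) := by gcongr
        _ = 2 * Real.exp (-(E0 * n) + (|H| * M * (n + 1) + |H| * M * (n + 1))) := by
            rw [Real.exp_add, Real.exp_add]; ring
        _ ≤ 2 * Real.exp (-1) := by
            have : -(E0 * n) + (|H| * M * (n + 1) + |H| * M * (n + 1)) ≤ -1 := by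
              rw [hE0]
              nlinarith
            gcongr
        _ < 1 := by
            have h9 : (2 : ℝ) < Real.exp 1 := by
              have := Real.add_one_lt_exp (x := 1) one_ne_zero
              linarith
            rw [Real.exp_neg, ← div_eq_mul_inv, div_lt_one (Real.exp_pos _)]
            exact h9
  have hconst : ∀ k, q (n₂ + k) = q n₂ := by
    intro k
    induction k with
    | zero => rfl
    | succ k ih => rw [← add_assoc, hstep _ (by omega), ih]
  have hlim : Tendsto (fun k : ℕ => Real.exp (-(E0 * ((n₂ + k : ℕ) : ℝ)))) atTop (𝓝 0) := by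
    have hE01 : 0 < E0 := by positivity
    refine Real.tendsto_exp_neg_atTop_nhds_zero.comp ?_
    apply Tendsto.const_mul_atTop hE01
    exact tendsto_natCast_atTop_atTop.comp (tendsto_atTop_mono (fun k => by
      change k ≤ n₂ + k; omega) tendsto_id)
  have hle : |y - q n₂| ≤ 0 := by
    refine ge_of_tendsto' hlim fun k => ?_
    have := (hq (n₂ + k) (by omega)).2
    rw [hconst k] at this
    exact this
  have hxe : y = q n₂ := by
    have := abs_nonpos_iff.1 hle
    linarith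
  exact hy ⟨q n₂, hxe.symm⟩

/-- **Uniform representations of the elements of the rings.** -/
theorem ifaceU {ι : Type} [Finite ι] (Γ : ι → Subgroup ℚˣ) {S : Set ℕ}
    (y : ι → ℝ) (hy : ∀ i, y i ∈ Algebra.adjoin ℚ {x | Gen S (Γ i) x}) :
    ∃ (m : ℕ) (B : Base m), ∀ i, Unif B S (VS B (Γ i)) (y i) := by
  classical
  have h0 : ∀ i, ∃ (k : ℕ) (f : Fin k → {x | Gen S (Γ i) x}) (q : MvPolynomial (Fin k) ℚ),
      y i = MvPolynomial.aeval (fun j => (f j : ℝ)) q := by
    intro i
    have h1 := hy i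
    have e1 : {x | Gen S (Γ i) x} = Set.range (Subtype.val : {x | Gen S (Γ i) x} → ℝ) :=
      Subtype.range_coe.symm
    rw [e1, Algebra.adjoin_range_eq_range_aeval] at h1
    obtain ⟨p, hp⟩ := h1
    obtain ⟨k, f, hf, q, rfl⟩ := MvPolynomial.exists_fin_rename p
    refine ⟨k, f, q, ?_⟩
    rw [← hp]
    change MvPolynomial.aeval _ _ = _
    rw [MvPolynomial.aeval_rename]
    rfl
  choose k f q hq using h0
  choose A fA γ c w C h1 h2 h3 h4 using fun i (j : Fin (k i)) => (f i j).2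
  have hγ0 : ∀ i j a, γ i j a ≠ 0 := by
    intro i j a h0
    obtain ⟨u, -, hu⟩ := h1 i j a
    rw [h0, abs_zero] at hu
    exact u.ne_zero hu.symm
  have hfin : Finite (Σ i, Σ j : Fin (k i), A i j) := by
    have : ∀ i, Finite (Σ j : Fin (k i), A i j) := fun i => by
      have := fun j => fA i j
      exact inferInstance
    exact inferInstance
  obtain ⟨m, B, hB⟩ := FldG.exists_base (ι := Σ i, Σ j : Fin (k i), A i j)
    (fun p => γ p.1 p.2.1 p.2.2) (fun p => hγ0 _ _ _)
  choose e he using hB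
  refine ⟨m, B, fun i => ?_⟩
  have hrep : ∀ j, Unif B S (VS B (Γ i)) (f i j : ℝ) := by
    intro j
    by_cases hirr : Irrational (f i j : ℝ)
    · have h5 := addr_of_ser (γ i j) (h2 i j) (w i j) (c i j)
      rw [(h3 i j).tsum_eq] at h5
      obtain ⟨r, C', hC', hr⟩ := repu m B (A i j) (fA i j) (γ i j) (c i j)
        (fun a => ⟨hγ0 i j a, h2 i j a⟩) (fun a => e ⟨i, j, a⟩) (fun a => he ⟨i, j, a⟩) (C i j)
      refine ⟨r, C', hC', fun N hNS hN2 hL => hr (w i j) _ h5 hirr N hN2
        (fun n => h4 i j (N n) (hNS n)) hL _ fun a => ?_⟩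
      obtain ⟨u, hu, hu2⟩ := h1 i j a
      refine Submodule.subset_span ⟨e ⟨i, j, a⟩, rfl, u, hu, ?_⟩
      rw [← hu2]
      exact he ⟨i, j, a⟩
    · unfold Irrational at hirr
      rw [not_not] at hirr
      obtain ⟨r, hr⟩ := hirr
      rw [← hr]
      exact Unif.const r
  rw [hq i]
  exact Unif.aeval hrep (q i)

/-- relations with algebraic coefficients give relations with rational coefficients -/
theorem ratrel {m : ℕ} (B : Base m) {L : ℕ → ℝ} (hL : Tendsto L atTop atTop) (r : ℕ)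
    (V : Fin r → Submodule ℝ (Fin m → ℝ)) (y : Fin r → ℝ) (hy : ∀ i, RepV B hL (V i) (y i))
    (α : Fin r → ℝ) (hα : ∀ i, IsAlgebraic ℚ (α i)) (hsum : ∑ i, α i * y i = 0) (i : Fin r)
    (hi : α i ≠ 0) : ∃ q : Fin r → ℚ, q i ≠ 0 ∧ ∑ j, (q j : ℝ) * y j = 0 := by
  classical
  set W : Submodule ℚ ℝ := Submodule.span ℚ (Set.range α) with hW
  have hfin : FiniteDimensional ℚ W := FiniteDimensional.span_of_finite ℚ (Set.finite_range α)
  set β := Module.finBasis ℚ W with hβ
  have hαW : ∀ i, α i ∈ W := fun i => Submodule.subset_span ⟨i, rfl⟩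
  have hWalg : ∀ z ∈ W, IsAlgebraic ℚ z := by
    intro z hz
    have h1 : W ≤ Subalgebra.toSubmodule (algebraicClosure ℚ ℝ).toSubalgebra := by
      rw [hW, Submodule.span_le]
      rintro _ ⟨j, rfl⟩
      exact (mem_algebraicClosure_iff).2 (hα j)
    exact (mem_algebraicClosure_iff).1 (h1 hz)
  have hind : LinearIndependent ℚ (fun l => (β l : ℝ)) :=
    β.linearIndependent.map' W.subtype (Submodule.ker_subtype W)
  set q : Fin r → Fin (Module.finrank ℚ W) → ℚ := fun i l => β.repr ⟨α i, hαW i⟩ l with hq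
  have e1 : ∀ i, α i = ∑ l, (β l : ℝ) * q i l := by
    intro i
    have h1 := β.sum_repr ⟨α i, hαW i⟩
    have h2 := congrArg (fun z : W => (z : ℝ)) h1
    simp only at h2
    rw [← h2, AddSubmonoidClass.coe_finsetSum]
    refine Finset.sum_congr rfl fun l _ => ?_
    rw [Submodule.coe_smul, Rat.smul_def, mul_comm]
  have hrep2 : ∀ l, Rep B hL (∑ i, (q i l : ℝ) * y i) := by
    intro l
    have h1 : ∀ i, Rep B hL (y i) := fun i => RepV.rep (hy i)
    have h2 := ring_thm m B _ hL (Fin r) y h1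
      (∑ i, MvPolynomial.C (q i l) * MvPolynomial.X i)
    rw [map_sum] at h2
    simp only [map_mul, MvPolynomial.aeval_C, MvPolynomial.aeval_X] at h2
    exact h2
  have e2 : ∀ l, ∑ i, (q i l : ℝ) * y i = 0 := by
    refine lin_fintype B hL (fun l => (β l : ℝ)) (fun l => hWalg _ (β l).2) hind _ hrep2 ?_
    rw [← hsum]
    simp only [Finset.mul_sum]
    rw [Finset.sum_comm]
    refine Finset.sum_congr rfl fun i _ => ?_
    rw [e1 i, Finset.sum_mul]
    refine Finset.sum_congr rfl fun l _ => ?_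
    ring
  obtain ⟨l, hl⟩ : ∃ l, q i l ≠ 0 := by
    by_contra hc
    push Not at hc
    apply hi
    rw [e1 i]
    refine Finset.sum_eq_zero fun l _ => ?_
    rw [hc l]
    simp
  exact ⟨fun j => q j l, hl, e2 l⟩

/-- **Sums over groups with trivial intersections.** -/
theorem sums {r : ℕ} {Γ : Fin r → Subgroup ℚˣ} (hΓ : ∀ i j, i ≠ j → Γ i ⊓ Γ j = ⊥)
    {S : Set ℕ} (hS : Ratio S) (y : Fin r → ℝ)
    (hy : ∀ i, y i ∈ Algebra.adjoin ℚ {x | Gen S (Γ i) x})
    (α : Fin r → ℝ) (hα : ∀ i, IsAlgebraic ℚ (α i)) (hsum : IsAlgebraic ℚ (∑ i, α i * y i))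
    (i : Fin r) (hi : α i ≠ 0) : ¬ Irrational (y i) := by
  classical
  intro hirr
  obtain ⟨m, B, hU⟩ := ifaceU Γ y hy
  -- one sequence of scales
  have hN : ∀ n : ℕ, ∃ N ∈ S, max n 2 ≤ N := by
    intro n
    obtain ⟨N, h5, h6⟩ := hS.inf.exists_gt (max n 2)
    exact ⟨N, h5, h6.le⟩
  choose N hNS hN2 using hN
  have hT : Tendsto N atTop atTop :=
    tendsto_atTop_mono (fun n => (le_max_left n 2).trans (hN2 n)) tendsto_id
  have hL : Tendsto (fun n => (N n : ℝ)) atTop atTop := tendsto_natCast_atTop_atTop.comp hT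
  set V' : Fin (r + 1) → Submodule ℝ (Fin m → ℝ) := Fin.cons ⊥ fun i => VS B (Γ i) with hV'
  set y' : Fin (r + 1) → ℝ := Fin.cons 1 y with hy'
  have hU' : ∀ i, Unif B S (V' i) (y' i) := by
    intro i
    refine Fin.cases ?_ (fun i => ?_) i
    · rw [hV', hy', Fin.cons_zero, Fin.cons_zero]
      have := Unif.const (B := B) (S := S) (V := ⊥) 1
      rwa [Rat.cast_one] at this
    · rw [hV', hy', Fin.cons_succ, Fin.cons_succ]
      exact hU i
  have hdis : ∀ i j, i ≠ j → Disjoint (V' i) (V' j) := by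
    intro i
    rw [hV']
    refine Fin.cases ?_ (fun i => ?_) i
    · intro j hij
      rw [Fin.cons_zero]
      exact disjoint_bot_left
    · intro j
      refine Fin.cases ?_ (fun j => ?_) j
      · intro _
        rw [Fin.cons_zero]
        exact disjoint_bot_right
      · intro hij
        rw [Fin.cons_succ, Fin.cons_succ]
        exact disj B (hΓ i j fun h => hij (by rw [h]))
  obtain ⟨q, hqi, hq⟩ := ratrel B hL (r + 1) V' y' (fun i => by
      obtain ⟨r', C', _, h⟩ := hU' i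
      exact (h N hNS (fun n => (le_max_right n 2).trans (hN2 n)) hL).repV)
    (Fin.cons (-∑ i, α i * y i) α) (by
      intro i
      refine Fin.cases ?_ (fun i => ?_) i
      · rw [Fin.cons_zero]
        exact hsum.neg
      · rw [Fin.cons_succ]
        exact hα i) (by
      rw [Fin.sum_univ_succ, hy']
      simp only [Fin.cons_zero, Fin.cons_succ]
      ring) i.succ (by rw [Fin.cons_succ]; exact hi)
  -- uniform constants
  choose rr CC hCC hrr using fun i => (Unif.const (B := B) (S := S) (V := V' i) (q i)).mul (hU' i)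
  obtain ⟨H, hH⟩ := direct_u m B (r + 1) V' hdis (∑ i, rr i) (C := ∑ i, CC i)
    (Finset.sum_nonneg fun i _ => hCC i)
  have hrat : ¬ Irrational ((q i.succ : ℝ) * y' i.succ) := by
    refine rational_of (H := H) hS fun N hNS hN2 hL => ?_
    exact hH _ hL (fun i => (q i : ℝ) * y' i) (fun i => (hrr i N hNS hN2 hL).mono
      (Finset.single_le_sum (f := rr) (fun _ _ => Nat.zero_le _) (Finset.mem_univ i))
      (Finset.single_le_sum (f := CC) (fun i _ => hCC i) (Finset.mem_univ i))) hq i.succ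
  apply hrat
  rw [hy', Fin.cons_succ]
  exact hirr.ratCast_mul hqi

end Pool.Agent.K1H46.UD
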