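import Mathlib
import Pool.Agent.K1H46.UD.Fin

set_option autoImplicit false
set_option linter.unusedSectionVars false

/-!
# Digits
-/

namespace Pool.Agent.K1H46.UD

open Filter Topology Pool.Agent.TH932.Abs Pool.Agent.TH932.Germs Pool.Agent.TH932.Chi
open Pool.Agent.TH932.Words Pool.Agent.TH796.AL Pool.Agent.TH796.AL.Strong
open Pool.Agent.TH796.AL.Final Pool.Agent.TH796.AL.TwoB Pool.Agent.TH796.AL.Grp
open Pool.Agent.TH796.AL.Dir Pool.Agent.TH796.AL.Ai

/-- numbers with few blocks in base `b` are uniformly represented -/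
theorem digU {m : ℕ} (B : Base m) {b : ℕ} (hb : 2 ≤ b) (e : Fin m → ℤ)
    (he : (b : ℚ) = ∏ i, (B.P i : ℚ) ^ e i) (C : ℝ) :
    ∃ (r : ℕ) (C' : ℝ), 0 ≤ C' ∧ ∀ (x : ℝ) (N : ℕ → ℕ) (_ : ∀ n, 2 ≤ N n)
      (_ : ∀ n, (complexity (digit b x) (N n) : ℝ) ≤ C * N n)
      (hL : Tendsto (fun n => (N n : ℝ)) atTop atTop) (V : Submodule ℝ (Fin m → ℝ))
      (_ : (fun i => (e i : ℝ)) ∈ V), RepU B hL V r C' x := by
  have : NeZero b := ⟨by omega⟩
  have hb0 : (0 : ℚ) < b := by exact_mod_cast (by omega : 0 < b)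
  have hb1 : (1 : ℚ) < b := by exact_mod_cast (by omega : 1 < b)
  obtain ⟨r, C', hC', hr⟩ := repu m B (ZMod b) inferInstance (fun _ => (1 / b : ℚ))
    (fun a => (a.val : ℚ) / b) (fun a => ⟨by positivity, by
      rw [abs_of_nonneg (by positivity), div_lt_one hb0]
      exact hb1⟩) (fun _ i => -e i) (fun a => by
      rw [abs_of_nonneg (by positivity), one_div, he, ← Finset.prod_inv_distrib]
      exact Finset.prod_congr rfl fun j _ => (zpow_neg _ _).symm) C
  refine ⟨r + 1, C', hC', fun x N hN2 hC hL V hV => ?_⟩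
  by_cases hx : Irrational x
  · have hx' : Irrational (x - ⌊x⌋) := hx.sub_intCast _
    have h1 : Addr (fun _ : ZMod b => (1 / b : ℚ)) (fun a => (a.val : ℚ) / b) (dz b x)
        (x - ⌊x⌋) := by
      have h5 := addr_of_ser (fun _ : ZMod b => (1 / b : ℚ)) (fun a => by
        rw [abs_of_nonneg (by positivity), div_lt_one hb0]
        exact hb1) (dz b x) (fun a => (a.val : ℚ) / b)
      have hs := hasSum_digits hb x
      have hs2 : HasSum (term (fun _ : ZMod b => (1 / b : ℚ))
          (fun a => (((a.val : ℚ) / b : ℚ) : ℝ)) (dz b x)) (x - ⌊x⌋) := by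
        convert hs using 2
        funext a
        push_cast
        rfl
      rw [hs2.tsum_eq] at h5
      exact h5
    have h2 := hr (dz b x) _ h1 hx' N hN2 (fun n => by
      have h2 := hC n
      rw [complexity_digit hb] at h2
      exact h2) hL V (fun _ => by
      have : (fun i => (((-e i : ℤ)) : ℝ)) = -(fun i => (e i : ℝ)) := by
        funext i
        push_cast
        rfl
      rw [this]
      exact V.neg_mem hV)
    have h3 := h2.add (RepU.const (B := B) (hL := hL) (V := V) (⌊x⌋ : ℚ))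
    have e1 : x - ⌊x⌋ + (((⌊x⌋ : ℚ)) : ℝ) = x := by
      push_cast
      ring
    rw [e1] at h3
    exact h3.mono le_rfl (max_le le_rfl hC')
  · unfold Irrational at hx
    rw [not_not] at hx
    obtain ⟨q, rfl⟩ := hx
    exact (RepU.const q).mono (by omega) hC'

/-- relations with algebraic coefficients give relations with rational coefficients, which
depend only on the coefficients -/
theorem ratrelU (r : ℕ) (α : Fin r → ℝ) (hα : ∀ i, IsAlgebraic ℚ (α i)) :
    ∃ (k : ℕ) (q : Fin r → Fin k → ℚ), (∀ i, α i ≠ 0 → ∃ l, q i l ≠ 0) ∧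
      ∀ {m : ℕ} (B : Base m) {L : ℕ → ℝ} (hL : Tendsto L atTop atTop) (y : Fin r → ℝ)
        (_ : ∀ i, Rep B hL (y i)) (_ : ∑ i, α i * y i = 0) (l : Fin k),
        ∑ i, (q i l : ℝ) * y i = 0 := by
  classical
  set W : Submodule ℚ ℝ := Submodule.span ℚ (Set.range α) with hW
  have hfin : FiniteDimensional ℚ W := FiniteDimensional.span_of_finite ℚ (Set.finite_range α)
  set β := Module.finBasis ℚ W with hβ
  have hαW : ∀ i, α i ∈ W := fun i => Submodule.subset_span ⟨i, rfl⟩
  have hWalg : ∀ z ∈ W, IsAlgebraic ℚ z := by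
    intro z hz
    have h1 : W ≤ Subalgebra.toSubmodule (algebraicClosure ℚ ℝ).toSubalgebra := by
      rw [hW, Submodule.span_le]
      rintro _ ⟨j, rfl⟩
      exact (mem_algebraicClosure_iff).2 (hα j)
    exact (mem_algebraicClosure_iff).1 (h1 hz)
  have hind : LinearIndependent ℚ (fun l => (β l : ℝ)) :=
    β.linearIndependent.map' W.subtype (Submodule.ker_subtype W)
  set q : Fin r → Fin (Module.finrank ℚ W) → ℚ := fun i l => β.repr ⟨α i, hαW i⟩ l with hq
  have e1 : ∀ i, α i = ∑ l, (β l : ℝ) * q i l := by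
    intro i
    have h1 := β.sum_repr ⟨α i, hαW i⟩
    have h2 := congrArg (fun z : W => (z : ℝ)) h1
    simp only at h2
    rw [← h2, AddSubmonoidClass.coe_finsetSum]
    refine Finset.sum_congr rfl fun l _ => ?_
    rw [Submodule.coe_smul, Rat.smul_def, mul_comm]
  refine ⟨_, q, fun i hi => ?_, fun {m} B {L} hL y hy hsum => ?_⟩
  · by_contra hc
    push Not at hc
    apply hi
    rw [e1 i]
    refine Finset.sum_eq_zero fun l _ => ?_
    rw [hc l]
    simp
  have hrep2 : ∀ l, Rep B hL (∑ i, (q i l : ℝ) * y i) := by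
    intro l
    have h2 := ring_thm m B _ hL (Fin r) y hy
      (∑ i, MvPolynomial.C (q i l) * MvPolynomial.X i)
    rw [map_sum] at h2
    simp only [map_mul, MvPolynomial.aeval_C, MvPolynomial.aeval_X] at h2
    exact h2
  refine lin_fintype B hL (fun l => (β l : ℝ)) (fun l => hWalg _ (β l).2) hind _ hrep2 ?_
  rw [← hsum]
  simp only [Finset.mul_sum]
  rw [Finset.sum_comm]
  refine Finset.sum_congr rfl fun i _ => ?_
  rw [e1 i, Finset.sum_mul]
  refine Finset.sum_congr rfl fun l _ => ?_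
  ring

/-- dividing by a rational number -/
lemma div_approx {q g : ℚ} (hq : q ≠ 0) {y H E L : ℝ} (hL : 1 ≤ L)
    (hg : (g.den : ℝ) ≤ Real.exp (H * L)) (h : |(q : ℝ) * y - g| ≤ Real.exp (-((|E| + abs (Real.log (abs (q : ℝ)))) * L))) :
    (((g / q : ℚ).den : ℕ) : ℝ) ≤ Real.exp ((H + Real.log (|(q.num : ℝ)| + 1)) * L) ∧
      |y - ((g / q : ℚ) : ℝ)| ≤ Real.exp (-(E * L)) := by
  have hq0 : (q : ℝ) ≠ 0 := by exact_mod_cast hq
  have hqa : 0 < |(q : ℝ)| := abs_pos.2 hq0
  constructor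
  · have h1 : (g / q : ℚ).den ≤ g.den * q.num.natAbs := by
      have h2 : (g / q : ℚ).den ∣ g.den * q⁻¹.den := by
        rw [div_eq_mul_inv]
        exact Rat.mul_den_dvd g q⁻¹
      have h3 : (q⁻¹).den = q.num.natAbs := Rat.den_inv_of_ne_zero hq
      rw [h3] at h2
      exact Nat.le_of_dvd (Nat.mul_pos g.den_pos (Int.natAbs_pos.2 (Rat.num_ne_zero.2 hq))) h2
    have h2 : ((q.num.natAbs : ℕ) : ℝ) = |(q.num : ℝ)| := by
      rw [← Int.cast_abs, Int.abs_eq_natAbs]
      rfl
    have h3 : (1 : ℝ) ≤ |(q.num : ℝ)| + 1 := by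
      have := abs_nonneg (q.num : ℝ)
      linarith
    have h4 : 0 ≤ Real.log (|(q.num : ℝ)| + 1) := Real.log_nonneg h3
    calc (((g / q : ℚ).den : ℕ) : ℝ) ≤ (g.den : ℝ) * |(q.num : ℝ)| := by
          rw [← h2]
          exact_mod_cast h1
      _ ≤ Real.exp (H * L) * (|(q.num : ℝ)| + 1) := by
          gcongr
          linarith
      _ = Real.exp (H * L) * Real.exp (Real.log (|(q.num : ℝ)| + 1)) := by
          rw [Real.exp_log (by linarith)]
      _ = Real.exp (H * L + Real.log (|(q.num : ℝ)| + 1)) := by rw [Real.exp_add]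
      _ ≤ _ := by
          apply Real.exp_le_exp.2
          nlinarith
  · have e1 : y - ((g / q : ℚ) : ℝ) = ((q : ℝ) * y - g) / q := by
      push_cast
      field_simp
    rw [e1, abs_div, div_le_iff₀ hqa]
    refine h.trans ?_
    have h2 : |(q : ℝ)| = Real.exp (Real.log |(q : ℝ)|) := (Real.exp_log hqa).symm
    conv_rhs => rw [h2]
    rw [← Real.exp_add]
    apply Real.exp_le_exp.2
    have h3 := neg_abs_le (Real.log |(q : ℝ)|)
    have h4 := le_abs_self E
    have h5 : 0 ≤ abs (Real.log (abs (q : ℝ))) := abs_nonneg _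
    nlinarith

/-- **Approximation at simple scales.** -/
theorem approx {r : ℕ} (b : Fin r → ℕ) (hb : ∀ i, 2 ≤ b i) (h : ∀ i j, i ≠ j → Indep (b i) (b j))
    (α : Fin r → ℝ) (hα : ∀ i, IsAlgebraic ℚ (α i)) (hα0 : ∀ i, α i ≠ 0) (β : ℝ)
    (hβ : IsAlgebraic ℚ β) (C : ℝ) : ∃ H : ℝ, ∀ x : Fin r → ℝ, ∑ i, α i * x i = β → ∀ E : ℝ,
      ∃ n₀ : ℕ, ∀ n ≥ n₀, (∃ i, C * n < complexity (digit (b i) (x i)) n) ∨
        ∀ i, ∃ q : ℚ, (q.den : ℝ) ≤ Real.exp (H * n) ∧ |x i - q| ≤ Real.exp (-(E * n)) := by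
  classical
  obtain ⟨m, B, hB⟩ := FldG.exists_base (ι := Fin r) (fun i => (b i : ℚ))
    (fun i => by have := hb i; positivity)
  choose e he using hB
  have he' : ∀ i, (b i : ℚ) = ∏ j, (B.P j : ℚ) ^ e i j := fun i => by
    rw [← he i, abs_of_nonneg (by positivity)]
  choose rr CC hCC hrr using fun i => digU B (hb i) (e i) (he' i) C
  obtain ⟨k, q, hq0, hq⟩ := ratrelU (r + 1) (Fin.cons (-β) α) (by
    intro i
    refine Fin.cases ?_ (fun i => ?_) i
    · rw [Fin.cons_zero]
      exact hβ.neg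
    · rw [Fin.cons_succ]
      exact hα i)
  have hq1 : ∀ i : Fin r, ∃ l, q i.succ l ≠ 0 := fun i => hq0 i.succ (by
    rw [Fin.cons_succ]
    exact hα0 i)
  choose l hl using hq1
  set V' : Fin (r + 1) → Submodule ℝ (Fin m → ℝ) := Fin.cons ⊥ fun i => VS B (GA {b i}) with hV'
  have hdis : ∀ i j, i ≠ j → Disjoint (V' i) (V' j) := by
    intro i
    rw [hV']
    refine Fin.cases ?_ (fun i => ?_) i
    · intro j hij
      rw [Fin.cons_zero]
      exact disjoint_bot_left
    · intro j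
      refine Fin.cases ?_ (fun j => ?_) j
      · intro _
        rw [Fin.cons_zero]
        exact disjoint_bot_right
      · intro hij
        rw [Fin.cons_succ, Fin.cons_succ]
        exact disj B (group_inf (hb i) (hb j) (h i j fun h => hij (by rw [h])))
  set R : ℕ := 1 + ∑ i, rr i with hR
  set K : ℝ := ∑ i, CC i with hK
  have hK0 : 0 ≤ K := Finset.sum_nonneg fun i _ => hCC i
  obtain ⟨H, hH⟩ := direct_u m B (r + 1) V' hdis R (C := K) hK0
  set H' : ℝ := |H| + ∑ i, Real.log (|((q i.succ (l i)).num : ℝ)| + 1) with hH'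
  have hlog : ∀ i : Fin r, 0 ≤ Real.log (|((q i.succ (l i)).num : ℝ)| + 1) := fun i =>
    Real.log_nonneg (by
      have := abs_nonneg ((q i.succ (l i)).num : ℝ)
      linarith)
  refine ⟨H', fun x hx E => ?_⟩
  by_contra hcon
  push Not at hcon
  choose N hN1 hN2 hN3 using fun n : ℕ => hcon (max n 2)
  have g2 : ∀ n, 2 ≤ N n := fun n => (le_max_right n 2).trans (hN1 n)
  have hT : Tendsto N atTop atTop :=
    tendsto_atTop_mono (fun n => (le_max_left n 2).trans (hN1 n)) tendsto_id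
  have hL : Tendsto (fun n => (N n : ℝ)) atTop atTop := tendsto_natCast_atTop_atTop.comp hT
  set y : Fin (r + 1) → ℝ := Fin.cons 1 x with hy
  have hrep : ∀ i, RepU B hL (V' i) R K (y i) := by
    intro i
    refine Fin.cases ?_ (fun i => ?_) i
    · rw [hV', hy, Fin.cons_zero, Fin.cons_zero]
      have h1 := RepU.const (B := B) (hL := hL) (V := ⊥) 1
      rw [Rat.cast_one] at h1
      exact h1.mono (by omega) hK0
    · rw [hV', hy, Fin.cons_succ, Fin.cons_succ]
      refine (hrr i (x i) N g2 (fun n => hN2 n i) hL _ ?_).mono ?_ ?_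
      · obtain ⟨u, hu, hub⟩ := mem_GA (A := {b i}) (hb i) rfl
        refine Submodule.subset_span ⟨e i, rfl, u, hu, ?_⟩
        rw [hub]
        exact he' i
      · have := Finset.single_le_sum (f := rr) (fun _ _ => Nat.zero_le _) (Finset.mem_univ i)
        omega
      · exact Finset.single_le_sum (f := CC) (fun i _ => hCC i) (Finset.mem_univ i)
  have hrel := hq B hL y (fun i => RepV.rep (hrep i).repV) (by
    rw [Fin.sum_univ_succ, hy]
    simp only [Fin.cons_zero, Fin.cons_succ]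
    rw [hx]
    ring)
  have hfin : ∀ i : Fin r, ∀ᶠ n in (UU : Filter ℕ), ∃ g : ℚ,
      (g.den : ℝ) ≤ Real.exp (H' * N n) ∧ |x i - g| ≤ Real.exp (-(E * N n)) := by
    intro i
    obtain ⟨g, hg1, hg2⟩ := hH _ hL (fun j => (q j (l i) : ℝ) * y j) (fun j =>
      ((RepU.const (q j (l i))).mul (hrep j)).mono (by omega) (by linarith)) (hrel (l i)) i.succ
    set Q : ℚ := q i.succ (l i) with hQ
    filter_upwards [hg1, hg2 (|E| + abs (Real.log (abs (Q : ℝ))))] with n h1 h2
    have hn1 : (1 : ℝ) ≤ N n := by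
      have := g2 n
      exact_mod_cast (by omega : 1 ≤ N n)
    simp only [hy, Fin.cons_succ] at h2
    obtain ⟨h3, h4⟩ := div_approx (hl i) hn1 h1 h2
    refine ⟨_, h3.trans (Real.exp_le_exp.2 ?_), h4⟩
    have h5 := Finset.single_le_sum (f := fun i => Real.log (|((q i.succ (l i)).num : ℝ)| + 1))
      (fun i _ => hlog i) (Finset.mem_univ i)
    have h6 := le_abs_self H
    gcongr
    rw [hH']
    exact add_le_add h6 h5
  obtain ⟨n, hn⟩ := (eventually_all.2 hfin).exists
  obtain ⟨i, hi⟩ := hN3 n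
  obtain ⟨g, h1, h2⟩ := hn i
  exact absurd h2 (not_le.2 (hi g h1))

end Pool.Agent.K1H46.UD
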