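import Mathlib
import Pool.Agent.K1H46.UD.Dig

set_option autoImplicit false
set_option linter.unusedSectionVars false

/-!
# Blocks of digits and coverings of orbit closures
-/

namespace Pool.Agent.K1H46.UD

open Pool.Agent.TH796.AL.Final Pool.Agent.TH796.AL.TwoB

/-- the digits of index less than `n` of a number with `⌊b ^ n {z}⌋ = t` -/
def dgt (b n : ℕ) (t : ℤ) (j : Fin n) : ℤ := t / (b : ℤ) ^ (n - 1 - (j : ℕ)) % b

lemma block_eq {b : ℕ} (hb : 2 ≤ b) (x : ℝ) (n i : ℕ) (j : Fin n) :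
    digit b x (i + j) = dgt b n ⌊Int.fract ((b : ℝ) ^ i * x) * (b : ℝ) ^ n⌋ j := by
  have hb0 : (0 : ℝ) < b := by exact_mod_cast (by omega : 0 < b)
  have hj := j.2
  obtain ⟨k, hk⟩ : ∃ k, n = k + (j + 1) := ⟨n - 1 - j, by omega⟩
  have hk' : n - 1 - (j : ℕ) = k := by omega
  unfold digit dgt
  rw [hk']
  have e1 : x * (b : ℝ) ^ (i + (j : ℕ) + 1)
      = (⌊(b : ℝ) ^ i * x⌋ * (b : ℤ) ^ ((j : ℕ) + 1) : ℤ)
        + Int.fract ((b : ℝ) ^ i * x) * (b : ℝ) ^ ((j : ℕ) + 1) := by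
    push_cast
    rw [← add_mul, Int.floor_add_fract, pow_add, pow_add, pow_add]
    ring
  rw [e1, Int.floor_intCast_add]
  have e2 : ⌊Int.fract ((b : ℝ) ^ i * x) * (b : ℝ) ^ ((j : ℕ) + 1)⌋
      = ⌊Int.fract ((b : ℝ) ^ i * x) * (b : ℝ) ^ n⌋ / (b : ℤ) ^ k := by
    have h1 := Int.floor_div_natCast
      (Int.fract ((b : ℝ) ^ i * x) * (b : ℝ) ^ n) (b ^ k)
    have h2 : Int.fract ((b : ℝ) ^ i * x) * (b : ℝ) ^ n / ((b ^ k : ℕ) : ℝ)
        = Int.fract ((b : ℝ) ^ i * x) * (b : ℝ) ^ ((j : ℕ) + 1) := by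
      have e3 : (b : ℝ) ^ n = (b : ℝ) ^ k * (b : ℝ) ^ ((j : ℕ) + 1) := by
        rw [← pow_add, ← hk]
      rw [e3]
      push_cast
      field_simp
    rw [h2] at h1
    rw [h1]
    push_cast
    rfl
  rw [e2, pow_succ, ← mul_assoc]
  rw [add_comm, Int.add_mul_emod_self_right]

/-- the number of blocks and coverings of the orbit -/
lemma blocks_le {b : ℕ} (hb : 2 ≤ b) (x : ℝ) (n : ℕ) (s : Finset ℝ)
    (h : Set.range (fun n : ℕ => Int.fract ((b : ℝ) ^ n * x)) ⊆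
      ⋃ c ∈ s, Set.Icc c (c + ((b : ℝ) ^ n)⁻¹)) : complexity (digit b x) n ≤ 2 * s.card := by
  classical
  have hb0 : (0 : ℝ) < (b : ℝ) ^ n := by
    have : (0 : ℝ) < b := by exact_mod_cast (by omega : 0 < b)
    positivity
  set F : Finset ℤ := s.image (fun c => ⌊c * (b : ℝ) ^ n⌋) ∪ s.image (fun c => ⌊c * (b : ℝ) ^ n⌋ + 1)
    with hF
  have hsub : (Set.range fun i => fun j : Fin n => digit b x (i + j)) ⊆ (F.image (dgt b n) : Set (Fin n → ℤ)) := by
    rintro _ ⟨i, rfl⟩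
    have h1 := h ⟨i, rfl⟩
    simp only [Set.mem_iUnion] at h1
    obtain ⟨c, hc, h2, h3⟩ := h1
    have h4 : c * (b : ℝ) ^ n ≤ Int.fract ((b : ℝ) ^ i * x) * (b : ℝ) ^ n := by gcongr
    have h5 : Int.fract ((b : ℝ) ^ i * x) * (b : ℝ) ^ n ≤ c * (b : ℝ) ^ n + 1 := by
      calc Int.fract ((b : ℝ) ^ i * x) * (b : ℝ) ^ n ≤ (c + ((b : ℝ) ^ n)⁻¹) * (b : ℝ) ^ n := by
            gcongr
        _ = c * (b : ℝ) ^ n + 1 := by
            rw [add_mul, inv_mul_cancel₀ hb0.ne']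
    have h6 := Int.floor_le_floor h4
    have h7 := Int.floor_le_floor h5
    rw [Int.floor_add_one] at h7
    rw [Finset.mem_coe, Finset.mem_image]
    refine ⟨⌊Int.fract ((b : ℝ) ^ i * x) * (b : ℝ) ^ n⌋, ?_, ?_⟩
    · rw [hF, Finset.mem_union, Finset.mem_image, Finset.mem_image]
      rcases (show ⌊Int.fract ((b : ℝ) ^ i * x) * (b : ℝ) ^ n⌋ = ⌊c * (b : ℝ) ^ n⌋ ∨
        ⌊Int.fract ((b : ℝ) ^ i * x) * (b : ℝ) ^ n⌋ = ⌊c * (b : ℝ) ^ n⌋ + 1 by omega) with h8 | h8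
      · exact Or.inl ⟨c, hc, h8.symm⟩
      · exact Or.inr ⟨c, hc, h8.symm⟩
    · funext j
      exact (block_eq hb x n i j).symm
  calc complexity (digit b x) n ≤ (F.image (dgt b n) : Set (Fin n → ℤ)).ncard :=
        Set.ncard_le_ncard hsub (Finset.finite_toSet _)
    _ = (F.image (dgt b n)).card := Set.ncard_coe_finset _
    _ ≤ F.card := Finset.card_image_le
    _ ≤ _ := by
      refine (Finset.card_union_le _ _).trans ?_
      have h1 := Finset.card_image_le (s := s) (f := fun c => ⌊c * (b : ℝ) ^ n⌋)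
      have h2 := Finset.card_image_le (s := s) (f := fun c => ⌊c * (b : ℝ) ^ n⌋ + 1)
      omega

/-- several numbers -/
theorem several {r : ℕ} (b : Fin r → ℕ) (hb : ∀ i, 2 ≤ b i)
    (h : ∀ i j, i ≠ j → Indep (b i) (b j)) (α : Fin r → ℝ) (hα : ∀ i, IsAlgebraic ℚ (α i))
    (x : Fin r → ℝ) (hsum : IsAlgebraic ℚ (∑ i, α i * x i)) (i : Fin r) (hi : α i ≠ 0)
    (hx : Irrational (x i)) (C : ℝ) (n₀ : ℕ) :
    ∃ n ≥ n₀, ∃ j, C * n < complexity (digit (b j) (x j)) n := by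
  by_contra hcon
  push Not at hcon
  refine sums (Γ := fun i => Pool.Agent.TH796.AL.Ai.GA {b i}) (S := {n | n₀ ≤ n}) (fun i j hij =>
    Pool.Agent.TH796.AL.Ai.group_inf (hb i) (hb j) (h i j hij)) ⟨1, n₀, fun n hn => ⟨n, hn, le_rfl, by
      rw [one_mul]⟩⟩ x (fun i => ?_) α hα hsum i hi hx
  exact Pool.Agent.TH796.AL.Grp.gen_digits (hb i)
    (Pool.Agent.TH796.AL.Ai.mem_GA (A := {b i}) (hb i) rfl) (C := C) (fun n hn => hcon n hn i)

/-- two bases -/
theorem two {a b : ℕ} (ha : 2 ≤ a) (hb : 2 ≤ b) (h : Indep a b) {x : ℝ} (hx : Irrational x)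
    (C : ℝ) (n₀ : ℕ) : ∃ n ≥ n₀, C * n < complexity (digit a x) n ∨
      C * n < complexity (digit b x) n := by
  obtain ⟨n, hn, j, hj⟩ := several ![a, b] (fun i => by fin_cases i <;> assumption)
    (fun i j hij => by
      fin_cases i <;> fin_cases j
      · exact absurd rfl hij
      · exact h
      · exact Pool.Agent.TH796.AL.Ai.GA_singleton_comm h
      · exact absurd rfl hij) ![1, -1] (fun i => by
      fin_cases i
      · exact isAlgebraic_one
      · exact isAlgebraic_one.neg) ![x, x] (by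
      simp only [Fin.sum_univ_two, Matrix.cons_val_zero, Matrix.cons_val_one]
      rw [show (1 : ℝ) * x + -1 * x = 0 by ring]
      exact isAlgebraic_zero) 0 (by simp) hx C n₀
  refine ⟨n, hn, ?_⟩
  fin_cases j
  · exact Or.inl hj
  · exact Or.inr hj

/-- coverings of the orbit closures -/
theorem cover {a b : ℕ} (ha : 2 ≤ a) (hb : 2 ≤ b) (h : Indep a b) {x : ℝ} (hx : Irrational x)
    (C ε₀ : ℝ) (hε : 0 < ε₀) : ∃ ε : ℝ, 0 < ε ∧ ε < ε₀ ∧
      ((∀ s : Finset ℝ, (s.card : ℝ) ≤ C * Real.log (1 / ε) →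
        ¬ Set.range (fun n : ℕ => Int.fract ((a : ℝ) ^ n * x)) ⊆ ⋃ c ∈ s, Set.Icc c (c + ε)) ∨
       (∀ s : Finset ℝ, (s.card : ℝ) ≤ C * Real.log (1 / ε) →
        ¬ Set.range (fun n : ℕ => Int.fract ((b : ℝ) ^ n * x)) ⊆ ⋃ c ∈ s, Set.Icc c (c + ε))) := by
  have key : ∀ c : ℕ, 2 ≤ c → ∀ n : ℕ, 2 * |C| * (Real.log a + Real.log b) * n
      < complexity (digit c x) n → Real.log c ≤ Real.log a + Real.log b →
      ∀ s : Finset ℝ, (s.card : ℝ) ≤ C * Real.log (1 / ((c : ℝ) ^ n)⁻¹) →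
        ¬ Set.range (fun n : ℕ => Int.fract ((c : ℝ) ^ n * x)) ⊆
          ⋃ t ∈ s, Set.Icc t (t + ((c : ℝ) ^ n)⁻¹) := by
    intro c hc n hn hlog s hs hcov
    have h1 := blocks_le hc x n s hcov
    have h2 : (complexity (digit c x) n : ℝ) ≤ 2 * s.card := by exact_mod_cast h1
    have hlc : 0 ≤ Real.log c := Real.log_nonneg (by exact_mod_cast (by omega : 1 ≤ c))
    have h3 : Real.log (1 / ((c : ℝ) ^ n)⁻¹) = n * Real.log c := by
      rw [one_div, inv_inv, Real.log_pow]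
    rw [h3] at hs
    have h4 : C * (n * Real.log c) ≤ |C| * (n * (Real.log a + Real.log b)) := by
      calc C * (n * Real.log c) ≤ |C| * (n * Real.log c) := by
            gcongr
            exact le_abs_self C
        _ ≤ _ := by gcongr
    linarith
  obtain ⟨n₀, hn₀⟩ : ∃ n₀ : ℕ, ((1 : ℝ) / 2) ^ n₀ < ε₀ :=
    exists_pow_lt_of_lt_one hε (by norm_num)
  have hsmall : ∀ c : ℕ, 2 ≤ c → ∀ n ≥ n₀, ((c : ℝ) ^ n)⁻¹ < ε₀ := by
    intro c hc n hn
    refine lt_of_le_of_lt ?_ hn₀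
    have hc2 : (2 : ℝ) ≤ c := by exact_mod_cast hc
    rw [one_div, inv_pow]
    apply inv_anti₀ (by positivity)
    calc (2 : ℝ) ^ n₀ ≤ 2 ^ n := pow_le_pow_right₀ (by norm_num) hn
      _ ≤ (c : ℝ) ^ n := by gcongr
  have hla : 0 ≤ Real.log a := Real.log_nonneg (by exact_mod_cast (by omega : 1 ≤ a))
  have hlb : 0 ≤ Real.log b := Real.log_nonneg (by exact_mod_cast (by omega : 1 ≤ b))
  obtain ⟨n, hn, hor⟩ := two ha hb h hx (2 * |C| * (Real.log a + Real.log b)) n₀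
  rcases hor with h1 | h1
  · exact ⟨((a : ℝ) ^ n)⁻¹, by positivity, hsmall a ha n hn, Or.inl (key a ha n h1 (by linarith))⟩
  · exact ⟨((b : ℝ) ^ n)⁻¹, by positivity, hsmall b hb n hn, Or.inr (key b hb n h1 (by linarith))⟩

/-- approximations of one number at the scales which are simple in two bases -/
theorem two_approx {a b : ℕ} (ha : 2 ≤ a) (hb : 2 ≤ b) (h : Indep a b) (C : ℝ) :
    ∃ H : ℝ, ∀ x E : ℝ, ∃ n₀ : ℕ, ∀ n ≥ n₀, C * n < complexity (digit a x) n ∨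
      C * n < complexity (digit b x) n ∨ ∃ q : ℚ, (q.den : ℝ) ≤ Real.exp (H * n) ∧
        |x - q| ≤ Real.exp (-(E * n)) := by
  obtain ⟨H, hH⟩ := approx ![a, b] (fun i => by fin_cases i <;> assumption)
    (fun i j hij => by
      fin_cases i <;> fin_cases j
      · exact absurd rfl hij
      · exact h
      · exact Pool.Agent.TH796.AL.Ai.GA_singleton_comm h
      · exact absurd rfl hij) ![1, -1] (fun i => by
      fin_cases i
      · exact isAlgebraic_one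
      · exact isAlgebraic_one.neg) (fun i => by fin_cases i <;> simp) 0 isAlgebraic_zero C
  refine ⟨H, fun x E => ?_⟩
  obtain ⟨n₀, hn₀⟩ := hH ![x, x] (by
    simp only [Fin.sum_univ_two, Matrix.cons_val_zero, Matrix.cons_val_one]
    ring) E
  refine ⟨n₀, fun n hn => ?_⟩
  rcases hn₀ n hn with ⟨i, hi⟩ | hq
  · fin_cases i
    · exact Or.inl hi
    · exact Or.inr (Or.inl hi)
  · exact Or.inr (Or.inr (hq 0))

end Pool.Agent.K1H46.UD
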