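import Mathlib
import Pool.Agent.K1H46.UD.Cov

set_option autoImplicit false
set_option linter.unusedSectionVars false

/-!
# The general uniform theorem
-/

namespace Pool.Agent.K1H46.UD

open Filter Topology Pool.Agent.TH932.Abs Pool.Agent.TH932.Germs Pool.Agent.TH932.Chi
open Pool.Agent.TH932.Words Pool.Agent.TH796.AL Pool.Agent.TH796.AL.Strong
open Pool.Agent.TH796.AL.Final Pool.Agent.TH796.AL.TwoB Pool.Agent.TH796.AL.Grp
open Pool.Agent.TH796.AL.Dir Pool.Agent.TH796.AL.Ai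

/-- uniform approximations -/
theorem approxG {r m : ℕ} (B : Base m) (V : Fin r → Submodule ℝ (Fin m → ℝ))
    (hV : ∀ i j, i ≠ j → Disjoint (V i) (V j)) (rr : Fin r → ℕ) (CC : Fin r → ℝ)
    (hCC : ∀ i, 0 ≤ CC i) (α : Fin r → ℝ) (hα : ∀ i, IsAlgebraic ℚ (α i)) (hα0 : ∀ i, α i ≠ 0)
    (β : ℝ) (hβ : IsAlgebraic ℚ β) : ∃ H : ℝ, ∀ (N : ℕ → ℕ) (_ : ∀ n, 2 ≤ N n)
      (hL : Tendsto (fun n => (N n : ℝ)) atTop atTop) (y : Fin r → ℝ)
      (_ : ∀ i, RepU B hL (V i) (rr i) (CC i) (y i)), ∑ i, α i * y i = β → ∀ E : ℝ,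
      ∀ᶠ n in (UU : Filter ℕ), ∀ i, ∃ q : ℚ, (q.den : ℝ) ≤ Real.exp (H * N n) ∧
        |y i - q| ≤ Real.exp (-(E * N n)) := by
  classical
  obtain ⟨k, q, hq0, hq⟩ := ratrelU (r + 1) (Fin.cons (-β) α) (by
    intro i
    refine Fin.cases ?_ (fun i => ?_) i
    · rw [Fin.cons_zero]
      exact hβ.neg
    · rw [Fin.cons_succ]
      exact hα i)
  have hq1 : ∀ i : Fin r, ∃ l, q i.succ l ≠ 0 := fun i => hq0 i.succ (by
    rw [Fin.cons_succ]
    exact hα0 i)
  choose l hl using hq1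
  set V' : Fin (r + 1) → Submodule ℝ (Fin m → ℝ) := Fin.cons ⊥ V with hV'
  have hdis : ∀ i j, i ≠ j → Disjoint (V' i) (V' j) := by
    intro i
    rw [hV']
    refine Fin.cases ?_ (fun i => ?_) i
    · intro j hij
      rw [Fin.cons_zero]
      exact disjoint_bot_left
    · intro j
      refine Fin.cases ?_ (fun j => ?_) j
      · intro _
        rw [Fin.cons_zero]
        exact disjoint_bot_right
      · intro hij
        rw [Fin.cons_succ, Fin.cons_succ]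
        exact hV i j fun h => hij (by rw [h])
  set R : ℕ := 1 + ∑ i, rr i with hR
  set K : ℝ := ∑ i, CC i with hK
  have hK0 : 0 ≤ K := Finset.sum_nonneg fun i _ => hCC i
  obtain ⟨H, hH⟩ := direct_u m B (r + 1) V' hdis R (C := K) hK0
  set H' : ℝ := |H| + ∑ i, Real.log (|((q i.succ (l i)).num : ℝ)| + 1) with hH'
  have hlog : ∀ i : Fin r, 0 ≤ Real.log (|((q i.succ (l i)).num : ℝ)| + 1) := fun i =>
    Real.log_nonneg (by
      have := abs_nonneg ((q i.succ (l i)).num : ℝ)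
      linarith)
  refine ⟨H', fun N g2 hL x hx hsum E => ?_⟩
  set y : Fin (r + 1) → ℝ := Fin.cons 1 x with hy
  have hrep : ∀ i, RepU B hL (V' i) R K (y i) := by
    intro i
    refine Fin.cases ?_ (fun i => ?_) i
    · rw [hV', hy, Fin.cons_zero, Fin.cons_zero]
      have h1 := RepU.const (B := B) (hL := hL) (V := ⊥) 1
      rw [Rat.cast_one] at h1
      exact h1.mono (by omega) hK0
    · rw [hV', hy, Fin.cons_succ, Fin.cons_succ]
      refine (hx i).mono ?_ ?_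
      · have := Finset.single_le_sum (f := rr) (fun _ _ => Nat.zero_le _) (Finset.mem_univ i)
        omega
      · exact Finset.single_le_sum (f := CC) (fun i _ => hCC i) (Finset.mem_univ i)
  have hrel := hq B hL y (fun i => RepV.rep (hrep i).repV) (by
    rw [Fin.sum_univ_succ, hy]
    simp only [Fin.cons_zero, Fin.cons_succ]
    rw [hsum]
    ring)
  refine eventually_all.2 fun i => ?_
  obtain ⟨g, hg1, hg2⟩ := hH _ hL (fun j => (q j (l i) : ℝ) * y j) (fun j =>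
    ((RepU.const (q j (l i))).mul (hrep j)).mono (by omega) (by linarith)) (hrel (l i)) i.succ
  set Q : ℚ := q i.succ (l i) with hQ
  filter_upwards [hg1, hg2 (|E| + abs (Real.log (abs (Q : ℝ))))] with n h1 h2
  have hn1 : (1 : ℝ) ≤ N n := by
    have := g2 n
    exact_mod_cast (by omega : 1 ≤ N n)
  simp only [hy, Fin.cons_succ] at h2
  obtain ⟨h3, h4⟩ := div_approx (hl i) hn1 h1 h2
  refine ⟨_, h3.trans (Real.exp_le_exp.2 ?_), h4⟩
  have h5 := Finset.single_le_sum (f := fun i => Real.log (|((q i.succ (l i)).num : ℝ)| + 1))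
    (fun i _ => hlog i) (Finset.mem_univ i)
  have h6 := le_abs_self H
  gcongr
  rw [hH']
  exact add_le_add h6 h5

/-- the sum of the series -/
noncomputable def value {A : Type} (γ c : A → ℚ) (w : ℕ → A) : ℝ :=
  ∑' n, (∏ k ∈ Finset.range n, (γ (w k) : ℝ)) * (c (w n) : ℝ)

/-- the sums of series are uniformly represented -/
theorem seriesU (m : ℕ) (B : Base m) (α : Type) (hα : Finite α) (γ c : α → ℚ)
    (hγ : ∀ a, γ a ≠ 0 ∧ |γ a| < 1) (e : α → Fin m → ℤ)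
    (he : ∀ a, |γ a| = ∏ i, (B.P i : ℚ) ^ e a i) (C : ℝ) :
    ∃ (r : ℕ) (C' : ℝ), 0 ≤ C' ∧ ∀ (w : ℕ → α)
      (N : ℕ → ℕ) (_ : ∀ n, 2 ≤ N n) (_ : ∀ n, (complexity w (N n) : ℝ) ≤ C * N n)
      (hL : Tendsto (fun n => (N n : ℝ)) atTop atTop) (V : Submodule ℝ (Fin m → ℝ))
      (_ : ∀ a, (fun i => (e a i : ℝ)) ∈ V), RepU B hL V r C' (value γ c w) := by
  obtain ⟨r, C', hC', h⟩ := repu m B α hα γ c hγ e he C
  refine ⟨r + 1, C', hC', fun w N hN2 hN hL V hV => ?_⟩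
  by_cases hx : Irrational (value γ c w)
  · have h5 := addr_of_ser γ (fun a => (hγ a).2) w c
    exact (h w _ h5 hx N hN2 hN hL V hV).mono (by omega) le_rfl
  · unfold Irrational at hx
    rw [not_not] at hx
    obtain ⟨q, hq⟩ := hx
    rw [← hq]
    exact (RepU.const q).mono (by omega) hC'

/-- polynomials -/
theorem polyU {σ : Type} (r : σ → ℕ) (C : σ → ℝ) (hC : ∀ j, 0 ≤ C j) (P : MvPolynomial σ ℚ) :
    ∃ (r' : ℕ) (C' : ℝ), 0 ≤ C' ∧ ∀ {m : ℕ} {B : Base m} {L : ℕ → ℝ}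
      {hL : Tendsto L atTop atTop} {V : Submodule ℝ (Fin m → ℝ)} (x : σ → ℝ)
      (_ : ∀ j, RepU B hL V (r j) (C j) (x j)), RepU B hL V r' C' (MvPolynomial.aeval x P) := by
  induction P using MvPolynomial.induction_on with
  | C a =>
    refine ⟨1, 0, le_rfl, fun {m B L hL V} x _ => ?_⟩
    rw [MvPolynomial.aeval_C]
    exact RepU.const a
  | add p q hp hq =>
    obtain ⟨r1, C1, h1, g1⟩ := hp
    obtain ⟨r2, C2, h2, g2⟩ := hq
    refine ⟨r1 + r2, max C1 C2, le_max_of_le_left h1, fun {m B L hL V} x hx => ?_⟩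
    rw [map_add]
    exact (g1 x hx).add (g2 x hx)
  | mul_X p i hp =>
    obtain ⟨r1, C1, h1, g1⟩ := hp
    refine ⟨r1 * r i, C1 + C i, add_nonneg h1 (hC i), fun {m B L hL V} x hx => ?_⟩
    rw [map_mul, MvPolynomial.aeval_X]
    exact (g1 x hx).mul (hx i)

/-- **The general theorem.** -/
theorem general (r k : ℕ) (Γ : Fin r → Subgroup ℚˣ) (hΓ : ∀ i j, i ≠ j → Γ i ⊓ Γ j = ⊥)
    (A : Fin r → Fin k → Type) (hA : ∀ i j, Finite (A i j)) (γ c : ∀ i j, A i j → ℚ)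
    (hγ : ∀ i j a, |γ i j a| < 1 ∧ ∃ u ∈ Γ i, |γ i j a| = ((u : ℚˣ) : ℚ))
    (P : Fin r → MvPolynomial (Fin k) ℚ) (α : Fin r → ℝ) (β : ℝ)
    (hα : ∀ i, IsAlgebraic ℚ (α i) ∧ α i ≠ 0) (hβ : IsAlgebraic ℚ β) (C : ℝ) : ∃ H : ℝ,
    ∀ (w : ∀ i j, ℕ → A i j) (y : Fin r → ℝ),
      (∀ i, y i = MvPolynomial.aeval (fun j => value (γ i j) (c i j) (w i j)) (P i)) →
      ∑ i, α i * y i = β → ∀ E : ℝ, ∃ n₀ : ℕ, ∀ n ≥ n₀,
        (∃ i j, C * n < complexity (w i j) n) ∨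
          ∀ i, ∃ q : ℚ, (q.den : ℝ) ≤ Real.exp (H * n) ∧ |y i - q| ≤ Real.exp (-(E * n)) := by
  classical
  have hγ0 : ∀ i j a, γ i j a ≠ 0 := by
    intro i j a h0
    obtain ⟨_, u, -, hu⟩ := hγ i j a
    rw [h0, abs_zero] at hu
    exact u.ne_zero hu.symm
  have hfin : Finite (Σ i, Σ j : Fin k, A i j) := by
    have : ∀ i, Finite (Σ j : Fin k, A i j) := fun i => by
      have := fun j => hA i j
      exact inferInstance
    exact inferInstance
  obtain ⟨m, B, hB⟩ := FldG.exists_base (ι := Σ i, Σ j : Fin k, A i j)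
    (fun p => γ p.1 p.2.1 p.2.2) (fun p => hγ0 _ _ _)
  choose e he using hB
  choose rr CC hCC hrr using fun i j => seriesU m B (A i j) (hA i j) (γ i j) (c i j)
    (fun a => ⟨hγ0 i j a, (hγ i j a).1⟩) (fun a => e ⟨i, j, a⟩) (fun a => he ⟨i, j, a⟩) C
  choose rp Cp hCp hrp using fun i => polyU (rr i) (CC i) (hCC i) (P i)
  obtain ⟨H, hH⟩ := approxG B (fun i => VS B (Γ i)) (fun i j hij => disj B (hΓ i j hij)) rp Cp hCp α
    (fun i => (hα i).1) (fun i => (hα i).2) β hβ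
  refine ⟨H, fun w y hy hsum E => ?_⟩
  by_contra hcon
  push Not at hcon
  choose N hN1 hN2 hN3 using fun n : ℕ => hcon (max n 2)
  have g2 : ∀ n, 2 ≤ N n := fun n => (le_max_right n 2).trans (hN1 n)
  have hT : Tendsto N atTop atTop :=
    tendsto_atTop_mono (fun n => (le_max_left n 2).trans (hN1 n)) tendsto_id
  have hL : Tendsto (fun n => (N n : ℝ)) atTop atTop := tendsto_natCast_atTop_atTop.comp hT
  have hrep : ∀ i, RepU B hL (VS B (Γ i)) (rp i) (Cp i) (y i) := by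
    intro i
    rw [hy i]
    refine hrp i _ fun j => ?_
    refine hrr i j (w i j) N g2 (fun n => hN2 n i j) hL _ fun a => ?_
    obtain ⟨_, u, hu, hub⟩ := hγ i j a
    refine Submodule.subset_span ⟨e ⟨i, j, a⟩, rfl, u, hu, ?_⟩
    rw [← hub]
    exact he ⟨i, j, a⟩
  obtain ⟨n, hn⟩ := (hH N g2 hL y hrep hsum E).exists
  obtain ⟨i, hi⟩ := hN3 n
  obtain ⟨q, h1, h2⟩ := hn i
  exact absurd h2 (not_le.2 (hi q h1))

end Pool.Agent.K1H46.UD
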